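import Pool.Agent.FB.Geo.Stek

/-! MP_15d50e_gt, module GEO: monotonicity in `η` and the assembly. -/

set_option autoImplicit false

open Complex Set
open scoped ComplexConjugate Real

namespace FB

theorem IsSol.mono {N : ℕ} {η η' t c σ : ℝ} {ψ ω v ν : ℂ → ℂ} {ρ : ℂ → ℝ}
    (H : IsSol N η t c σ ψ ω v ν ρ) (h : η ≤ η') : IsSol N η' t c σ ψ ω v ν ρ :=
  { H with
    tnear := H.tnear.trans h
    cnear := H.cnear.trans h
    close := fun x h1 h2 => (H.close x h1 h2).trans (by gcongr)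
    lip := fun x y h1 h2 h3 h4 => (H.lip x y h1 h2 h3 h4).trans (by gcongr)
    omclose := fun x h1 h2 => (H.omclose x h1 h2).trans (by gcongr) }

/-- A property of solutions holds for small `η` and large `N`. -/
def ForSmall (P : ℕ → ℝ → ℝ → (ℂ → ℂ) → Prop) : Prop :=
  ∃ (η : ℝ) (N₁ : ℕ), 0 < η ∧ ∀ N : ℕ, N₁ ≤ N → ∀ (t c σ : ℝ) (ψ ω v ν : ℂ → ℂ) (ρ : ℂ → ℝ),
    IsSol N η t c σ ψ ω v ν ρ → P N t c ψ

theorem ForSmall.and {P Q : ℕ → ℝ → ℝ → (ℂ → ℂ) → Prop} (hP : ForSmall P) (hQ : ForSmall Q) :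
    ForSmall fun N t c ψ => P N t c ψ ∧ Q N t c ψ := by
  obtain ⟨η, N₁, h0, h⟩ := hP
  obtain ⟨η', N₁', h0', h'⟩ := hQ
  refine ⟨min η η', max N₁ N₁', lt_min h0 h0', fun N hN t c σ ψ ω v ν ρ H => ⟨?_, ?_⟩⟩
  · exact h N ((le_max_left _ _).trans hN) t c σ ψ ω v ν ρ (H.mono (min_le_left _ _))
  · exact h' N ((le_max_right _ _).trans hN) t c σ ψ ω v ν ρ (H.mono (min_le_right _ _))

/-- Assembly of `TheoremGEO` from G1, G2, G3 and the charts. -/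
theorem geo_of (h1 : ForSmall fun _ t c ψ => G1 t c ψ) (h2 : ForSmall fun N t c ψ => G2 N t c ψ)
    (h3 : ForSmall fun _ t c ψ => G3 t c ψ)
    (h4 : ∀ (N : ℕ) (η t c σ : ℝ) (ψ ω v ν : ℂ → ℂ) (ρ : ℂ → ℝ), 0 < N →
      IsSol N η t c σ ψ ω v ν ρ → G1 t c ψ → G2 N t c ψ → G3 t c ψ →
      IsFBMS (surf c t ψ) ∧ G4i t c ψ ∧ G4b t c ψ) : TheoremGEO := by
  obtain ⟨η, N₁, h0, h⟩ := (h1.and h2).and h3
  refine ⟨η, max N₁ 1, h0, fun N hN t c σ ψ ω v ν ρ H => ?_⟩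
  have hN0 : 0 < N := (le_max_right N₁ 1).trans hN
  obtain ⟨⟨a1, a2⟩, a3⟩ := h N ((le_max_left _ _).trans hN) t c σ ψ ω v ν ρ H
  obtain ⟨b1, b2, b3⟩ := h4 N η t c σ ψ ω v ν ρ hN0 H a1 a2 a3
  exact ⟨b1, g5 hN0 H a2 a3 b2 b3⟩

end FB
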