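import Pool.Agent.FB.Geo.Harm

/-! MP_15d50e_gt, module GEO: the boundary chart map `bmap`, the radial derivative, and `G4d`. -/

set_option autoImplicit false

open Complex Set Metric InnerProductSpace Laplacian
open scoped ComplexConjugate Real Topology

namespace FB

theorem lp_norm_ge {p : ℤ × ℤ} (hp : p ≠ 0) : 1 ≤ ‖lp p‖ := by
  have h0 : p.1 ≠ 0 ∨ p.2 ≠ 0 := by
    by_contra h
    push Not at h
    exact hp (Prod.ext h.1 h.2)
  rcases h0 with h | h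
  · have h1 : (1 : ℝ) ≤ |(p.1 : ℝ)| := by exact_mod_cast Int.one_le_abs h
    have h2 := abs_re_le_norm (lp p)
    rw [lp_re] at h2
    exact h1.trans h2
  · have h1 : (1 : ℝ) ≤ |(p.2 : ℝ)| := by exact_mod_cast Int.one_le_abs h
    have h2 := abs_im_le_norm (lp p)
    rw [lp_im] at h2
    exact h1.trans h2

theorem norm_sub_lp_ge {x : ℂ} {p q : ℤ × ℤ} (h : q ≠ p) : 1 - ‖x - lp p‖ ≤ ‖x - lp q‖ := by
  have h1 : q + -p ≠ 0 := by
    intro h0
    exact h (by rw [← sub_eq_add_neg] at h0; exact sub_eq_zero.1 h0)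
  have h2 := lp_norm_ge h1
  rw [lp_add, lp_neg] at h2
  have h3 : lp q + -lp p = (x - lp p) - (x - lp q) := by ring
  rw [h3] at h2
  have h4 := norm_sub_le (x - lp p) (x - lp q)
  linarith

theorem mem_US_of {x : ℂ} {p : ℤ × ℤ} {s : ℝ} (h1 : s < ‖x - lp p‖) (h2 : ‖x - lp p‖ + s < 1) :
    x ∈ US s := by
  intro q
  by_cases h : q = p
  · rwa [h]
  · have h3 := norm_sub_lp_ge (x := x) h
    linarith

theorem mem_ES_of {x : ℂ} {p : ℤ × ℤ} {s : ℝ} (h1 : s ≤ ‖x - lp p‖) (h2 : ‖x - lp p‖ + s ≤ 1) :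
    x ∈ ES s := by
  intro q
  by_cases h : q = p
  · rwa [h]
  · have h3 := norm_sub_lp_ge (x := x) h
    linarith

theorem bmap_sub (t : ℝ) (p : ℤ × ℤ) (e w : ℂ) : bmap t p e w - lp p = t * e * cexp (-(I * w)) := by
  unfold bmap
  ring

theorem bmap_norm {t : ℝ} (ht : 0 < t) (p : ℤ × ℤ) {e : ℂ} (he : ‖e‖ = 1) (w : ℂ) :
    ‖bmap t p e w - lp p‖ = t * Real.exp w.im := by
  rw [bmap_sub, norm_mul, norm_mul, he, norm_real, Real.norm_of_nonneg ht.le, mul_one, norm_exp]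
  simp

/-- The derivative of `bmap`. -/
theorem bmap_hasDerivAt (t : ℝ) (p : ℤ × ℤ) (e w : ℂ) :
    HasDerivAt (bmap t p e) (-(I * (bmap t p e w - lp p))) w := by
  have h1 : HasDerivAt (fun w : ℂ => -(I * w)) (-(I * 1)) w :=
    ((hasDerivAt_id w).const_mul I).neg
  have h2 := (h1.cexp.const_mul ((t : ℂ) * e)).const_add (lp p)
  have h3 : (fun w : ℂ => lp p + (t : ℂ) * e * cexp (-(I * w))) = bmap t p e := by
    funext w
    rfl
  rw [h3] at h2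
  refine h2.congr_deriv ?_
  rw [bmap_sub]
  ring

/-- The derivative of `bmap` is differentiable and nonzero. -/
theorem bmap_diff (t : ℝ) (p : ℤ × ℤ) (e : ℂ) (V : Set ℂ) :
    DifferentiableOn ℂ (fun w => -(I * (bmap t p e w - lp p))) V := fun w _ =>
  ((((bmap_hasDerivAt t p e w).differentiableAt.sub_const (lp p)).const_mul I).neg).differentiableWithinAt

theorem bmap_deriv_ne {t : ℝ} (ht : 0 < t) (p : ℤ × ℤ) {e : ℂ} (he : ‖e‖ = 1) (w : ℂ) :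
    -(I * (bmap t p e w - lp p)) ≠ 0 := by
  rw [neg_ne_zero]
  refine mul_ne_zero I_ne_zero ?_
  rw [← norm_pos_iff, bmap_norm ht p he]
  positivity

theorem circle_mem_US {t : ℝ} (ht : 0 < t) (ht' : t < 1 / 8) {z : ℂ} (hz : ‖z‖ = t) (q : ℤ × ℤ) :
    z + lp q ∈ US (t / 2) := by
  refine mem_US_of (p := q) ?_ ?_
  · rw [add_sub_cancel_right, hz]
    linarith
  · rw [add_sub_cancel_right, hz]
    linarith

/-- The radial derivative on the boundary of the hole at `lp q`. -/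
theorem radial {κ : ℂ} {t : ℝ} {ψ ω : ℂ → ℂ} (H : IsBlochHarm κ (t / 2) ψ ω) (ht : 0 < t)
    (ht' : t < 1 / 8) {z : ℂ} (hz : ‖z‖ = t) {r : ℝ}
    (hr : z * ω z - conj (z * ω (-z)) = -(r : ℂ) * ψ z) (q : ℤ × ℤ) :
    ∃ D : ℂ →L[ℝ] ℂ, HasFDerivAt ψ D (z + lp q) ∧ D z = -(r : ℂ) * ψ (z + lp q) := by
  have h0 : z ∈ US (t / 2) := by
    have := circle_mem_US ht ht' hz 0
    simpa [lp] using this
  have h1 := circle_mem_US ht ht' hz q
  have h2 := H.deriv _ h1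
  have h3 : HasFDerivAt (fun z' => ψ (z' + lp q))
      (dpair (ω (z + lp q)) (-(conj (ω (-(z + lp q)))))) z := by
    have h8 := HasFDerivAt.comp (g := ψ) (f := fun z' => z' + lp q) z h2
      ((hasFDerivAt_id z).add_const (lp q))
    rwa [ContinuousLinearMap.comp_id] at h8
  have h4 : HasFDerivAt (fun z' => chi κ q * ψ z')
      (chi κ q • dpair (ω z) (-(conj (ω (-z))))) z := (H.deriv z h0).const_mul (chi κ q)
  have h5 : (fun z' => ψ (z' + lp q)) =ᶠ[𝓝 z] fun z' => chi κ q * ψ z' := by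
    filter_upwards [(isOpen_US (t / 2)).mem_nhds h0] with z' hz'
    exact H.bloch z' hz' q
  have h6 := h3.unique (h4.congr_of_eventuallyEq h5)
  refine ⟨_, h2, ?_⟩
  rw [h6, H.bloch z h0 q]
  have h7 : dpair (ω z) (-(conj (ω (-z)))) z = z * ω z - conj (z * ω (-z)) := by
    rw [dpair_apply, map_mul]
    ring
  show chi κ q * dpair (ω z) (-(conj (ω (-z)))) z = _
  rw [h7, hr]
  ring

/-- The derivative of `ψ ∘ g ∘ bmap` in the direction `I`, for a linear isometry `g` preserving the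
lattice. -/
theorem bmap_radial {κ : ℂ} {t : ℝ} {ψ ω : ℂ → ℂ} (H : IsBlochHarm κ (t / 2) ψ ω) (ht : 0 < t)
    (ht' : t < 1 / 8) {ρ : ℂ → ℝ}
    (hfree : ∀ z : ℂ, ‖z‖ = t → z * ω z - conj (z * ω (-z)) = -((ρ z : ℝ) : ℂ) * ψ z)
    (p : ℤ × ℤ) {e : ℂ} (he : ‖e‖ = 1) {w : ℂ} (hw : w.im = 0) (g : ℂ →L[ℝ] ℂ) (q : ℤ × ℤ)
    (hg : g (lp p) = lp q) (hn : ∀ z, ‖g z‖ = ‖z‖) :
    ∃ L : ℂ →L[ℝ] ℂ, HasFDerivAt (fun w => ψ (g (bmap t p e w))) L w ∧
      L I = -((ρ (g (bmap t p e w - lp p)) : ℝ) : ℂ) * ψ (g (bmap t p e w)) := by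
  set z := bmap t p e w - lp p with hz
  have hzn : ‖g z‖ = t := by
    rw [hn, hz, bmap_norm ht p he, hw, Real.exp_zero, mul_one]
  obtain ⟨D, hD, hDz⟩ := radial H ht ht' hzn (hfree _ hzn) q
  have h1 : g (bmap t p e w) = g z + lp q := by
    rw [← hg, ← map_add, hz, sub_add_cancel]
  rw [← h1] at hD hDz
  have h2 : HasFDerivAt (fun w => g (bmap t p e w)) _ w :=
    g.hasFDerivAt.comp w ((bmap_hasDerivAt t p e w).hasFDerivAt.restrictScalars ℝ)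
  refine ⟨_, HasFDerivAt.comp (g := ψ) w hD h2, ?_⟩
  rw [← hDz]
  have h3 : I * -(I * z) = z := by
    linear_combination (-z) * I_sq
  simp [← hz, h3]

/-- The components of `u ∘ bmap`. -/
theorem bmap_comp {κ : ℂ} {t c : ℝ} {ψ ω : ℂ → ℂ} (H : IsBlochHarm κ (t / 2) ψ ω) (ht : 0 < t)
    (ht' : t < 1 / 8) {ρ : ℂ → ℝ}
    (hfree : ∀ z : ℂ, ‖z‖ = t → z * ω z - conj (z * ω (-z)) = -((ρ z : ℝ) : ℂ) * ψ z)
    (hrot : ∀ z : ℂ, ‖z‖ = t → ρ (I * z) = ρ z) (hconj : ∀ z : ℂ, ‖z‖ = t → ρ (conj z) = ρ z)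
    (p : ℤ × ℤ) {e : ℂ} (he : ‖e‖ = 1) {w : ℂ} (hw : w.im = 0) (i : Fin 8) :
    ∃ L : ℂ →L[ℝ] ℝ, HasFDerivAt (fun w => uMap c ψ (bmap t p e w) i) L w ∧
      L I = -(ρ (bmap t p e w - lp p)) * uMap c ψ (bmap t p e w) i := by
  set z := bmap t p e w - lp p with hz
  have hzn : ‖z‖ = t := by
    rw [hz, bmap_norm ht p he, hw, Real.exp_zero, mul_one]
  have key : ∀ (g : ℂ →L[ℝ] ℂ) (q : ℤ × ℤ), g (lp p) = lp q → (∀ z, ‖g z‖ = ‖z‖) → ρ (g z) = ρ z →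
      ∃ L : ℂ →L[ℝ] ℂ, HasFDerivAt (fun w => ψ (g (bmap t p e w))) L w ∧
        L I = -((ρ z : ℝ) : ℂ) * ψ (g (bmap t p e w)) := by
    intro g q hg hn hr
    obtain ⟨L, h1, h2⟩ := bmap_radial H ht ht' hfree p he hw g q hg hn
    rw [← hz, hr] at h2
    exact ⟨L, h1, h2⟩
  have kre : ∀ {G : ℂ → ℂ} {L : ℂ →L[ℝ] ℂ}, HasFDerivAt G L w → L I = -((ρ z : ℝ) : ℂ) * G w →
      ∃ L : ℂ →L[ℝ] ℝ, HasFDerivAt (fun w => c * (G w).re) L w ∧
        L I = -(ρ z) * (c * (G w).re) := by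
    intro G L h1 h2
    refine ⟨_, (reCLM.hasFDerivAt.comp w h1).const_mul c, ?_⟩
    simp [h2]
    ring
  have kim : ∀ {G : ℂ → ℂ} {L : ℂ →L[ℝ] ℂ}, HasFDerivAt G L w → L I = -((ρ z : ℝ) : ℂ) * G w →
      ∃ L : ℂ →L[ℝ] ℝ, HasFDerivAt (fun w => c * (G w).im) L w ∧
        L I = -(ρ z) * (c * (G w).im) := by
    intro G L h1 h2
    refine ⟨_, (imCLM.hasFDerivAt.comp w h1).const_mul c, ?_⟩
    simp [h2]
    ring
  obtain ⟨L1, a1, b1⟩ := key (ContinuousLinearMap.id ℝ ℂ) p rfl (fun _ => rfl) rfl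
  obtain ⟨L2, a2, b2⟩ := key (ContinuousLinearMap.mul ℝ ℂ I) (-p.2, p.1) (by simp [lp_I])
    (by simp) (by simpa using hrot z hzn)
  obtain ⟨L3, a3, b3⟩ := key (conjCLE : ℂ →L[ℝ] ℂ) (p.1, -p.2) (by simp [lp_conj])
    (by simp) (by simpa using hconj z hzn)
  obtain ⟨L4, a4, b4⟩ := key ((ContinuousLinearMap.mul ℝ ℂ I).comp (conjCLE : ℂ →L[ℝ] ℂ))
    (p.2, p.1) (by
      have h1 := lp_I (p.1, -p.2)
      rw [lp_conj] at h1
      simpa using h1.symm)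
    (by simp) (by
      have h1 := hrot (conj z) (by simpa using hzn)
      rw [hconj z hzn] at h1
      simpa using h1)
  fin_cases i
  · exact kre a1 b1
  · exact kim a1 b1
  · exact kre a2 b2
  · exact kim a2 b2
  · exact kre a3 b3
  · exact kim a3 b3
  · exact kre a4 b4
  · exact kim a4 b4

/-- The derivative of the boundary chart in the direction `I` at real `w`. -/
theorem g4d {κ : ℂ} {t c : ℝ} {ψ ω : ℂ → ℂ} (H : IsBlochHarm κ (t / 2) ψ ω) (ht : 0 < t)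
    (ht' : t < 1 / 8) {ρ : ℂ → ℝ}
    (hfree : ∀ z : ℂ, ‖z‖ = t → z * ω z - conj (z * ω (-z)) = -((ρ z : ℝ) : ℂ) * ψ z)
    (hrot : ∀ z : ℂ, ‖z‖ = t → ρ (I * z) = ρ z) (hconj : ∀ z : ℂ, ‖z‖ = t → ρ (conj z) = ρ z) :
    G4d t c ψ ρ := by
  intro p e he w hw
  have h0 : DifferentiableAt ℝ (fun w => uMap c ψ (bmap t p e w)) w :=
    differentiableAt_euclidean.2 fun i => by
      obtain ⟨L, h1, -⟩ := bmap_comp (c := c) H ht ht' hfree hrot hconj p he hw i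
      exact h1.differentiableAt
  ext i
  obtain ⟨L, h1, h2⟩ := bmap_comp (c := c) H ht ht' hfree hrot hconj p he hw i
  have h3 := (EuclideanSpace.proj i : Eu 8 →L[ℝ] ℝ).hasFDerivAt.comp w h0.hasFDerivAt
  have h4 : ((EuclideanSpace.proj i : Eu 8 →L[ℝ] ℝ) ∘ fun w => uMap c ψ (bmap t p e w)) =
      fun w => uMap c ψ (bmap t p e w) i := by
    funext w
    simp
  rw [h4] at h3
  have h5 : (fderiv ℝ (fun w => uMap c ψ (bmap t p e w)) w I) i = L I :=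
    congrArg (fun T : ℂ →L[ℝ] ℝ => T I) (h3.unique h1)
  rw [h5, h2]
  simp

end FB
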