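import Pool.Agent.FB.Geo.Common
import Pool.Agent.FB.GeoA.Lat

/-! MP_15d50e_gt, module GEO: harmonicity and smoothness of functions given by `HasFDerivAt`. -/

set_option autoImplicit false

open Complex Set Metric InnerProductSpace Laplacian
open scoped ComplexConjugate Real Topology

namespace FB

/-- The real linear form `w ↦ Re (a w)`. -/
noncomputable def reMul (a : ℂ) : ℂ →L[ℝ] ℝ := reCLM.comp (ContinuousLinearMap.mul ℝ ℂ a)

@[simp] theorem reMul_apply (a w : ℂ) : reMul a w = (a * w).re := by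
  simp [reMul]

/-- `g` is, on `U`, locally the real part of a primitive of the holomorphic function `h`. -/
structure HarmD (g : ℂ → ℝ) (h : ℂ → ℂ) (U : Set ℂ) : Prop where
  hol : DifferentiableOn ℂ h U
  der : ∀ z ∈ U, HasFDerivAt g (reMul (h z)) z

theorem HarmD.mono {g : ℂ → ℝ} {h : ℂ → ℂ} {U V : Set ℂ} (H : HarmD g h U) (hV : V ⊆ U) :
    HarmD g h V :=
  ⟨H.hol.mono hV, fun z hz => H.der z (hV hz)⟩

/-- Near every point of `U`, `g` is the real part of a holomorphic function. -/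
theorem HarmD.exists_re {g : ℂ → ℝ} {h : ℂ → ℂ} {U : Set ℂ} (H : HarmD g h U) (hU : IsOpen U)
    {z : ℂ} (hz : z ∈ U) : ∃ F : ℂ → ℂ, AnalyticAt ℂ F z ∧ g =ᶠ[𝓝 z] fun w => (F w).re := by
  obtain ⟨R, hR, hRU⟩ := Metric.isOpen_iff.1 hU z hz
  obtain ⟨F, hF⟩ := ((H.hol.mono hRU).isExactOn_ball).with_val_at z (g z)
  have hFa : AnalyticAt ℂ F z :=
    DifferentiableOn.analyticAt (s := ball z R)
      (fun w hw => (hF.2 w hw).differentiableAt.differentiableWithinAt) (ball_mem_nhds z hR)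
  refine ⟨F, hFa, ?_⟩
  filter_upwards [ball_mem_nhds z hR] with w hw
  have key := (convex_ball z R).eqOn_of_fderivWithin_eq (𝕜 := ℝ) (x := z) (f := g)
    (g := fun w => (F w).re)
    (fun y hy => (H.der y (hRU hy)).differentiableAt.differentiableWithinAt)
    (fun y hy => by
      have h1 := ((hF.2 y hy).hasFDerivAt.restrictScalars ℝ)
      exact (reCLM.hasFDerivAt.comp y h1).differentiableAt.differentiableWithinAt)
    isOpen_ball.uniqueDiffOn
    (fun y hy => by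
      have h1 := ((hF.2 y hy).hasFDerivAt.restrictScalars ℝ)
      have h2 : HasFDerivAt (fun w => (F w).re) _ y := reCLM.hasFDerivAt.comp y h1
      rw [fderivWithin_of_isOpen isOpen_ball hy, fderivWithin_of_isOpen isOpen_ball hy,
        (H.der y (hRU hy)).fderiv, h2.fderiv]
      ext w
      simp [mul_comm])
    (mem_ball_self hR) (by simp [hF.1])
  exact key hw

theorem HarmD.harmonicAt {g : ℂ → ℝ} {h : ℂ → ℂ} {U : Set ℂ} (H : HarmD g h U) (hU : IsOpen U)
    {z : ℂ} (hz : z ∈ U) : HarmonicAt g z := by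
  obtain ⟨F, hF, he⟩ := H.exists_re hU hz
  exact (harmonicAt_congr_nhds he).2 hF.harmonicAt_re

open scoped ContDiff in
theorem HarmD.contDiffAt {g : ℂ → ℝ} {h : ℂ → ℂ} {U : Set ℂ} (H : HarmD g h U) (hU : IsOpen U)
    {z : ℂ} (hz : z ∈ U) : ContDiffAt ℝ ∞ g z :=
  (HarmonicAt.analyticAt (H.harmonicAt hU hz)).contDiffAt

theorem HarmD.laplacian {g : ℂ → ℝ} {h : ℂ → ℂ} {U : Set ℂ} (H : HarmD g h U) (hU : IsOpen U)
    {z : ℂ} (hz : z ∈ U) : Δ g z = 0 :=
  (H.harmonicAt hU hz).2.eq_of_nhds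

/-- Composition with a holomorphic map. -/
theorem HarmD.comp {g : ℂ → ℝ} {h : ℂ → ℂ} {U V : Set ℂ} (H : HarmD g h U) {φ φ' : ℂ → ℂ}
    (hφ : ∀ w ∈ V, HasDerivAt φ (φ' w) w) (hφ' : DifferentiableOn ℂ φ' V)
    (hm : ∀ w ∈ V, φ w ∈ U) : HarmD (fun w => g (φ w)) (fun w => h (φ w) * φ' w) V := by
  refine ⟨(H.hol.comp (fun w hw => (hφ w hw).differentiableAt.differentiableWithinAt)
    hm).mul hφ', fun w hw => ?_⟩
  have h1 := (H.der (φ w) (hm w hw)).comp w ((hφ w hw).hasFDerivAt.restrictScalars ℝ)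
  refine h1.congr_fderiv ?_
  ext v
  simp [mul_comm, mul_left_comm]

/-- Composition with the conjugation. -/
theorem HarmD.comp_conj {g : ℂ → ℝ} {h : ℂ → ℂ} {U : Set ℂ} (H : HarmD g h U) (hU : IsOpen U) :
    HarmD (fun w => g (conj w)) (fun w => conj (h (conj w))) {w | conj w ∈ U} := by
  refine ⟨fun w hw => ?_, fun w hw => ?_⟩
  · have h1 : DifferentiableAt ℂ h (conj w) := (H.hol (conj w) hw).differentiableAt (hU.mem_nhds hw)
    have h2 : DifferentiableAt ℂ (conj ∘ h ∘ conj) w := by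
      have h3 := (differentiableAt_conj_conj_iff (f := h) (x := w)).2 h1
      exact h3
    exact h2.differentiableWithinAt
  · have h1 := (H.der (conj w) hw).comp w (conjCLE.hasFDerivAt (x := w))
    refine h1.congr_fderiv ?_
    ext v
    simp

/-- Multiplication by a real constant. -/
theorem HarmD.const_mul {g : ℂ → ℝ} {h : ℂ → ℂ} {U : Set ℂ} (H : HarmD g h U) (c : ℝ) :
    HarmD (fun w => c * g w) (fun w => c * h w) U := by
  refine ⟨(differentiableOn_const _).mul H.hol, fun w hw => ?_⟩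
  have h1 := (H.der w hw).const_mul c
  refine h1.congr_fderiv ?_
  ext v
  simp [mul_assoc]

/-! ### The domain `US s` -/

theorem finite_lp (x : ℂ) (R : ℝ) : {p : ℤ × ℤ | ‖x - lp p‖ ≤ R}.Finite := by
  refine ((Set.finite_Icc ⌊x.re - R⌋ ⌈x.re + R⌉).prod
    (Set.finite_Icc ⌊x.im - R⌋ ⌈x.im + R⌉)).subset ?_
  rintro p hp
  have h1 := (abs_re_le_norm (x - lp p)).trans hp
  have h2 := (abs_im_le_norm (x - lp p)).trans hp
  rw [sub_re, lp_re, abs_le] at h1
  rw [sub_im, lp_im, abs_le] at h2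
  simp only [mem_prod, mem_Icc]
  refine ⟨⟨?_, ?_⟩, ⟨?_, ?_⟩⟩
  · have h3 : (⌊x.re - R⌋ : ℝ) ≤ p.1 := (Int.floor_le _).trans (by linarith)
    exact_mod_cast h3
  · have h3 : (p.1 : ℝ) ≤ ⌈x.re + R⌉ := le_trans (by linarith) (Int.le_ceil _)
    exact_mod_cast h3
  · have h3 : (⌊x.im - R⌋ : ℝ) ≤ p.2 := (Int.floor_le _).trans (by linarith)
    exact_mod_cast h3
  · have h3 : (p.2 : ℝ) ≤ ⌈x.im + R⌉ := le_trans (by linarith) (Int.le_ceil _)
    exact_mod_cast h3

theorem lp_I (p : ℤ × ℤ) : lp (-p.2, p.1) = I * lp p := by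
  simp only [lp]
  push_cast
  linear_combination (-(p.2 : ℂ)) * I_sq

theorem lp_conj (p : ℤ × ℤ) : lp (p.1, -p.2) = conj (lp p) := by
  simp [lp]

theorem US_add {s : ℝ} {x : ℂ} (hx : x ∈ US s) (p : ℤ × ℤ) : x + lp p ∈ US s := by
  intro q
  have h1 := hx (q + -p)
  rw [lp_add, lp_neg] at h1
  have h3 : x + lp p - lp q = x - (lp q + -lp p) := by ring
  rwa [h3]

theorem ES_add {s : ℝ} {x : ℂ} (hx : x ∈ ES s) (p : ℤ × ℤ) : x + lp p ∈ ES s := by
  intro q
  have h1 := hx (q + -p)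
  rw [lp_add, lp_neg] at h1
  have h3 : x + lp p - lp q = x - (lp q + -lp p) := by ring
  rwa [h3]

/-! ### Real and imaginary part of a Bloch harmonic function -/

theorem IsBlochHarm.re {κ : ℂ} {s : ℝ} {ψ ω : ℂ → ℂ} (H : IsBlochHarm κ s ψ ω) :
    HarmD (fun z => (ψ z).re) (fun z => ω z - ω (-z)) (US s) := by
  refine ⟨H.ω_diff.sub (H.ω_diff.comp differentiable_neg.differentiableOn fun z hz => US_neg hz),
    fun z hz => ?_⟩
  have h1 := reCLM.hasFDerivAt.comp z (H.deriv z hz)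
  refine h1.congr_fderiv ?_
  ext v
  simp
  ring

theorem IsBlochHarm.im {κ : ℂ} {s : ℝ} {ψ ω : ℂ → ℂ} (H : IsBlochHarm κ s ψ ω) :
    HarmD (fun z => (ψ z).im) (fun z => -I * (ω z + ω (-z))) (US s) := by
  refine ⟨(differentiableOn_const _).mul (H.ω_diff.add
    (H.ω_diff.comp differentiable_neg.differentiableOn fun z hz => US_neg hz)), fun z hz => ?_⟩
  have h1 := imCLM.hasFDerivAt.comp z (H.deriv z hz)
  refine h1.congr_fderiv ?_
  ext v
  simp
  ring

/-! ### Maps to Euclidean space -/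

open scoped ContDiff in
theorem vec_smooth {n : ℕ} {f : ℂ → Eu n} {U : Set ℂ} (hU : IsOpen U)
    (H : ∀ i, ∃ h, HarmD (fun x => f x i) h U) {z : ℂ} (hz : z ∈ U) : ContDiffAt ℝ ∞ f z :=
  contDiffAt_euclidean.2 fun i => by
    obtain ⟨h, hh⟩ := H i
    exact hh.contDiffAt hU hz

theorem vec_laplacian {n : ℕ} {f : ℂ → Eu n} {U : Set ℂ} (hU : IsOpen U)
    (H : ∀ i, ∃ h, HarmD (fun x => f x i) h U) {z : ℂ} (hz : z ∈ U) : Δ f z = 0 := by
  ext i
  obtain ⟨h, hh⟩ := H i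
  have h1 : ContDiffAt ℝ 2 f z := (vec_smooth hU H hz).of_le
    (WithTop.coe_le_coe.2 (le_top : (2 : ℕ∞) ≤ ⊤))
  have h2 := h1.laplacian_CLM_comp_left (l := (EuclideanSpace.proj i : Eu n →L[ℝ] ℝ))
  have h3 : ((EuclideanSpace.proj i : Eu n →L[ℝ] ℝ) ∘ f) = fun x => f x i := by
    ext x
    simp
  rw [h3, hh.laplacian hU hz] at h2
  simpa using h2.symm

theorem uMap_comp {κ : ℂ} {s c : ℝ} {ψ ω : ℂ → ℂ} (H : IsBlochHarm κ s ψ ω) (i : Fin 8) :
    ∃ h, HarmD (fun x => uMap c ψ x i) h (US s) := by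
  have hI : ∀ w ∈ US s, HasDerivAt (fun w : ℂ => I * w) (I : ℂ) w := fun w _ => by
    simpa using (hasDerivAt_id w).const_mul I
  have hc : ∀ {V : Set ℂ}, DifferentiableOn ℂ (fun _ : ℂ => (I : ℂ)) V :=
    fun {V} => differentiableOn_const _
  have hsub : US s ⊆ {w | conj w ∈ US s} := fun w hw => US_conj hw
  have a1 := H.re
  have a2 := H.im
  have b1 := a1.comp hI hc fun w hw => US_I hw
  have b2 := a2.comp hI hc fun w hw => US_I hw
  have c1 := (a1.comp_conj (isOpen_US s)).mono hsub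
  have c2 := (a2.comp_conj (isOpen_US s)).mono hsub
  have d1 := (b1.comp_conj (isOpen_US s)).mono hsub
  have d2 := (b2.comp_conj (isOpen_US s)).mono hsub
  fin_cases i
  · exact ⟨_, a1.const_mul c⟩
  · exact ⟨_, a2.const_mul c⟩
  · exact ⟨_, b1.const_mul c⟩
  · exact ⟨_, b2.const_mul c⟩
  · exact ⟨_, c1.const_mul c⟩
  · exact ⟨_, c2.const_mul c⟩
  · exact ⟨_, d1.const_mul c⟩
  · exact ⟨_, d2.const_mul c⟩

/-- `uMap c ψ` composed with a holomorphic map `φ`, with derivative `φ'`, from an open set `V` to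
`US s`. -/
theorem uMap_hol {κ : ℂ} {s c : ℝ} {ψ ω : ℂ → ℂ} (H : IsBlochHarm κ s ψ ω) {φ φ' : ℂ → ℂ}
    {V : Set ℂ} (hφ : ∀ w ∈ V, HasDerivAt φ (φ' w) w) (hφ' : DifferentiableOn ℂ φ' V)
    (hm : ∀ w ∈ V, φ w ∈ US s) (i : Fin 8) :
    ∃ h, HarmD (fun w => uMap c ψ (φ w) i) h V := by
  obtain ⟨h, hh⟩ := uMap_comp (c := c) H i
  exact ⟨_, hh.comp hφ hφ' hm⟩

theorem uMap_differentiableAt {κ : ℂ} {s c : ℝ} {ψ ω : ℂ → ℂ} (H : IsBlochHarm κ s ψ ω) {z : ℂ}
    (hz : z ∈ US s) : DifferentiableAt ℝ (uMap c ψ) z :=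
  (vec_smooth (isOpen_US s) (fun i => uMap_comp H i) hz).differentiableAt (by simp)

/-- Conformality is preserved by composition with a holomorphic map. -/
theorem ConformalAt.comp {n : ℕ} {f : ℂ → Eu n} {φ : ℂ → ℂ} {a w : ℂ} (h : ConformalAt f (φ w))
    (hf : DifferentiableAt ℝ f (φ w)) (hφ : HasDerivAt φ a w) (ha : a ≠ 0) :
    ConformalAt (fun w => f (φ w)) w := by
  have h1 : HasFDerivAt (fun w => f (φ w)) _ w :=
    hf.hasFDerivAt.comp w (hφ.hasFDerivAt.restrictScalars ℝ)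
  set A := fderiv ℝ f (φ w) 1 with hA
  set B := fderiv ℝ f (φ w) I with hB
  have hlin : ∀ v : ℂ, fderiv ℝ f (φ w) v = v.re • A + v.im • B := by
    intro v
    conv_lhs => rw [(by simp : v = v.re • (1 : ℂ) + v.im • (I : ℂ))]
    rw [map_add, map_smul, map_smul]
  have hD1 : fderiv ℝ (fun w => f (φ w)) w 1 = a.re • A + a.im • B := by
    rw [h1.fderiv, ← hlin]
    simp
  have hDI : fderiv ℝ (fun w => f (φ w)) w I = (-a.im) • A + a.re • B := by
    rw [h1.fderiv]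
    have h2 : fderiv ℝ f (φ w) (I * a) = (-a.im) • A + a.re • B := by
      rw [hlin]
      simp
    rw [← h2]
    simp
  obtain ⟨hpos, heq, hort⟩ := h
  rw [← hA] at hpos heq hort
  rw [← hB] at heq hort
  have hort' : inner ℝ B A = 0 := by rw [real_inner_comm]; exact hort
  have hq : ∀ x y : ℝ, ‖x • A + y • B‖ = Real.sqrt (x ^ 2 + y ^ 2) * ‖A‖ := by
    intro x y
    have h3 : ‖x • A + y • B‖ ^ 2 = (x ^ 2 + y ^ 2) * ‖A‖ ^ 2 := by
      rw [← real_inner_self_eq_norm_sq, ← real_inner_self_eq_norm_sq]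
      simp only [inner_add_left, inner_add_right, inner_smul_left, inner_smul_right, hort, hort']
      have h4 : inner ℝ B B = inner ℝ A A := by
        rw [real_inner_self_eq_norm_sq, real_inner_self_eq_norm_sq, heq]
      rw [h4]
      simp
      ring
    have h5 : ‖x • A + y • B‖ = Real.sqrt ((x ^ 2 + y ^ 2) * ‖A‖ ^ 2) := by
      rw [← h3, Real.sqrt_sq (norm_nonneg _)]
    rw [h5, Real.sqrt_mul (by positivity), Real.sqrt_sq (norm_nonneg _)]
  have hapos : 0 < a.re ^ 2 + a.im ^ 2 := by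
    have h6 := normSq_pos.2 ha
    rw [normSq_apply] at h6
    nlinarith [h6]
  refine ⟨?_, ?_, ?_⟩
  · rw [hD1, hq]
    exact mul_pos (Real.sqrt_pos.2 hapos) hpos
  · rw [hD1, hDI, hq, hq]
    congr 2
    ring
  · rw [hD1, hDI]
    simp only [inner_add_left, inner_add_right, inner_smul_left, inner_smul_right, hort, hort']
    have h4 : inner ℝ B B = inner ℝ A A := by
      rw [real_inner_self_eq_norm_sq, real_inner_self_eq_norm_sq, heq]
    rw [h4]
    simp
    ring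

end FB
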