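import Pool.Agent.FB.Geo.Sym
import Pool.Agent.FB.Geo.Harm

/-! MP_15d50e_gt, module GEO, G4: interior and boundary charts of the surface. -/

set_option autoImplicit false

open Complex Set Metric InnerProductSpace Laplacian
open scoped ComplexConjugate Real Topology

namespace FB.Tp

variable {N : ℕ} {t c : ℝ} {ψ ω : ℂ → ℂ} {ρ : ℂ → ℝ}

/-- a small element of `N (ℤ + i ℤ)`, `N ≥ 1`, is zero -/
theorem natCast_mul_lp_eq_zero (N : ℕ) {p : ℤ × ℤ} (h : ‖(N : ℂ) * lp p‖ < 1) :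
    (N : ℂ) * lp p = 0 := by
  rw [natCast_mul_lp] at h ⊢
  by_contra hc
  have h1 : ((N : ℤ) * p.1, (N : ℤ) * p.2) ≠ 0 := by
    intro h2
    rw [h2] at hc
    exact hc lp_zero
  exact absurd (one_le_norm_lp h1) (not_le.2 h)

theorem uMap_continuousOn (ht : 0 < t) (h : IsBlochHarm (kap N) (t / 2) ψ ω) :
    ContinuousOn (uMap c ψ) (ES t) := fun x hx =>
  (uMap_differentiableAt h (ES_subset_US (by linarith) hx)).continuousAt.continuousWithinAt

theorem uMap_per_ES (hN : 1 ≤ N) (ht : 0 < t) (h : IsBlochHarm (kap N) (t / 2) ψ ω) :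
    ∀ x ∈ ES t, ∀ p : ℤ × ℤ, uMap c ψ (x + N * lp p) = uMap c ψ x := fun _ hx p =>
  uMap_per hN h (ES_subset_US (by linarith) hx) p

/-- G4, interior charts -/
theorem g4i (hN : 1 ≤ N) (ht : 0 < t) (h : IsBlochHarm (kap N) (t / 2) ψ ω) (h1 : G1 t c ψ)
    (h2 : G2 N t c ψ) : G4i t c ψ := by
  intro x hx
  obtain ⟨R, hR, hRU⟩ := Metric.isOpen_iff.1 (isOpen_US t) x hx
  obtain ⟨r, hr⟩ : ∃ r : ℝ, r = min (R / 2) (1 / 4) := ⟨_, rfl⟩
  have hrpos : 0 < r := by
    rw [hr]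
    exact lt_min (by linarith) (by norm_num)
  have hrR : r < R := by
    rw [hr]
    exact (min_le_left _ _).trans_lt (by linarith)
  have hr4 : r ≤ 1 / 4 := hr ▸ min_le_right _ _
  have hmem : ∀ w : ℂ, ‖w‖ ≤ r → x + w ∈ US t := by
    intro w hw
    refine hRU ?_
    rw [mem_ball, dist_eq_norm, add_sub_cancel_left]
    exact hw.trans_lt hrR
  have hmem' : ∀ w : ℂ, ‖w‖ ≤ r → x + w ∈ US (t / 2) := fun w hw =>
    US_anti (by linarith) (hmem w hw)
  obtain ⟨U, hU⟩ : ∃ U : Set ℂ, U = (fun w => x + w) ⁻¹' US (t / 2) := ⟨_, rfl⟩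
  have hUo : IsOpen U := by
    rw [hU]
    exact (isOpen_US _).preimage (by fun_prop)
  have hder : ∀ w : ℂ, HasDerivAt (fun w => x + w) (1 : ℂ) w := fun w => by
    simpa using (hasDerivAt_id w).const_add x
  have hcomp : ∀ i : Fin 8, ∃ g, HarmD (fun w => uMap c ψ (x + w) i) g U := fun i => by
    refine uMap_hol h (φ' := fun _ => 1) (fun w _ => hder w) (differentiableOn_const _) ?_ i
    intro w hw
    rw [hU] at hw
    exact hw
  have hwU : ∀ w : ℂ, ‖w‖ ≤ r → w ∈ U := fun w hw => by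
    rw [hU]
    exact hmem' w hw
  refine ⟨r, hrpos, hmem, ⟨hrpos, by simp, fun w hw => vec_smooth hUo hcomp (hwU w hw), ?_,
    fun w hw => vec_laplacian hUo hcomp (hwU w hw), ?_, ?_⟩⟩
  · intro w hw
    exact (h1 (x + w) (US_subset_ES t (hmem w hw))).comp (uMap_differentiableAt h (hmem' w hw))
      (hder w) one_ne_zero
  · intro w hw w' hw' he
    obtain ⟨p, hp⟩ := h2 _ (US_subset_ES t (hmem w hw)) _ (US_subset_ES t (hmem w' hw')) he
    have h3 : (N : ℂ) * lp p = w' - w := by linear_combination -hp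
    have h4 : ‖(N : ℂ) * lp p‖ < 1 := by
      rw [h3]
      exact (norm_sub_le _ _).trans_lt (by linarith)
    have h5 := natCast_mul_lp_eq_zero N h4
    rw [h3] at h5
    exact (sub_eq_zero.1 h5).symm
  · obtain ⟨V, hV, hVe⟩ := exists_open_image hN (uMap_continuousOn ht h) (uMap_per_ES hN ht h) h2
      (isOpen_ball (x := x) (ε := r))
    refine ⟨V, hV, ?_⟩
    unfold surf
    rw [hVe]
    ext z
    constructor
    · rintro ⟨y, ⟨_, hy⟩, rfl⟩
      rw [mem_ball, dist_eq_norm] at hy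
      exact ⟨y - x, hy, by simp⟩
    · rintro ⟨w, hw, rfl⟩
      refine ⟨x + w, ⟨US_subset_ES t (hmem w (le_of_lt hw)), ?_⟩, rfl⟩
      rw [mem_ball, dist_eq_norm, add_sub_cancel_left]
      exact hw

/-! ### The map `bmap` -/

theorem norm_bmap_sub {t : ℝ} (ht : 0 < t) (p : ℤ × ℤ) {e : ℂ} (he : ‖e‖ = 1) (w : ℂ) :
    ‖bmap t p e w - lp p‖ = t * Real.exp w.im := by
  have h1 : bmap t p e w - lp p = t * e * cexp (-(I * w)) := by
    unfold bmap
    ring
  rw [h1, norm_mul, norm_mul, he, Complex.norm_exp, Complex.norm_real, Real.norm_eq_abs,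
    abs_of_pos ht, mul_one]
  congr 2
  simp

theorem bmap_hasDerivAt (t : ℝ) (p : ℤ × ℤ) (e w : ℂ) :
    HasDerivAt (bmap t p e) (t * e * (cexp (-(I * w)) * -I)) w := by
  have h1 : HasDerivAt (fun w : ℂ => -(I * w)) (-I) w := by
    simpa using ((hasDerivAt_id w).const_mul I).fun_neg
  exact ((h1.cexp).const_mul (t * e : ℂ)).const_add (lp p)

theorem bmap_isOpen {t : ℝ} (ht : 0 < t) (p : ℤ × ℤ) {e : ℂ} (he : ‖e‖ = 1) {O : Set ℂ}
    (hO : IsOpen O) : IsOpen (bmap t p e '' O) := by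
  have hte : (t : ℂ) * e ≠ 0 := by
    refine mul_ne_zero (by exact_mod_cast ht.ne') ?_
    intro h
    rw [h, norm_zero] at he
    exact zero_ne_one he
  have h1 : IsOpen ((fun w : ℂ => -I * w) '' O) :=
    (Homeomorph.mulLeft₀ (-I) (neg_ne_zero.2 I_ne_zero)).isOpenMap O hO
  have h2 : IsOpen (cexp '' ((fun w : ℂ => -I * w) '' O)) := isOpenMap_exp _ h1
  have h3 : IsOpen ((fun w : ℂ => (t : ℂ) * e * w) '' (cexp '' ((fun w : ℂ => -I * w) '' O))) :=
    (Homeomorph.mulLeft₀ _ hte).isOpenMap _ h2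
  have h4 : IsOpen ((fun w : ℂ => lp p + w) '' ((fun w : ℂ => (t : ℂ) * e * w) ''
      (cexp '' ((fun w : ℂ => -I * w) '' O)))) := (Homeomorph.addLeft (lp p)).isOpenMap _ h3
  rw [image_image, image_image, image_image] at h4
  have h5 : bmap t p e = fun w => lp p + (t : ℂ) * e * cexp (-I * w) := by
    funext w
    unfold bmap
    rw [neg_mul]
  rw [h5]
  exact h4

/-- the points `bmap w` with `|w| ≤ 1/2` are far from the other lattice points -/
theorem bmap_far {t : ℝ} (ht : 0 < t) (ht8 : t < 1 / 8) {p q : ℤ × ℤ} (hq : q ≠ p) {e : ℂ}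
    (he : ‖e‖ = 1) {w : ℂ} (hw : ‖w‖ ≤ 1 / 2) : t < ‖bmap t p e w - lp q‖ := by
  have h1 := one_le_norm_lp (sub_ne_zero.2 hq)
  rw [lp_sub] at h1
  have h2 : ‖lp q - lp p‖ ≤ ‖bmap t p e w - lp q‖ + ‖bmap t p e w - lp p‖ := by
    have h3 : lp q - lp p = (bmap t p e w - lp p) - (bmap t p e w - lp q) := by ring
    rw [h3, add_comm]
    exact norm_sub_le _ _
  rw [norm_bmap_sub ht p he] at h2
  have h4 : w.im ≤ 1 / 2 := ((le_abs_self _).trans (Complex.abs_im_le_norm w)).trans hw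
  have h5 : Real.exp w.im ≤ Real.exp 1 := Real.exp_le_exp.2 (by linarith)
  have h6 := Real.exp_one_lt_d9
  have h7 : t * Real.exp w.im ≤ 1 / 8 * 3 := by
    refine mul_le_mul ht8.le (by linarith) (Real.exp_pos _).le (by norm_num)
  linarith

theorem bmap_mem_US {t : ℝ} (ht : 0 < t) (ht8 : t < 1 / 8) (p : ℤ × ℤ) {e : ℂ}
    (he : ‖e‖ = 1) {w : ℂ} (hw : ‖w‖ ≤ 1 / 2) : bmap t p e w ∈ US (t / 2) := by
  intro q
  by_cases hq : q = p
  · subst hq
    rw [norm_bmap_sub ht q he]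
    have h1 : -(1 / 2) ≤ w.im := by
      have := ((neg_abs_le w.im).trans' (neg_le_neg (Complex.abs_im_le_norm w)))
      linarith
    have h2 := Real.add_one_le_exp w.im
    have h3 : (1 / 2 : ℝ) < Real.exp w.im := by
      rcases eq_or_ne w.im 0 with h0 | h0
      · rw [h0, Real.exp_zero]
        norm_num
      · have := Real.add_one_lt_exp h0
        linarith
    nlinarith
  · have := bmap_far ht ht8 hq he hw
    linarith

theorem bmap_mem_ES {t : ℝ} (ht : 0 < t) (ht8 : t < 1 / 8) (p : ℤ × ℤ) {e : ℂ}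
    (he : ‖e‖ = 1) {w : ℂ} (hw : ‖w‖ ≤ 1 / 2) (hw0 : 0 ≤ w.im) : bmap t p e w ∈ ES t := by
  intro q
  by_cases hq : q = p
  · subst hq
    rw [norm_bmap_sub ht q he]
    have h3 : 1 ≤ Real.exp w.im := Real.one_le_exp hw0
    nlinarith
  · exact (bmap_far ht ht8 hq he hw).le

theorem bmap_mem_UST {t : ℝ} (ht : 0 < t) (ht8 : t < 1 / 8) (p : ℤ × ℤ) {e : ℂ}
    (he : ‖e‖ = 1) {w : ℂ} (hw : ‖w‖ ≤ 1 / 2) (hw0 : 0 < w.im) : bmap t p e w ∈ US t := by
  intro q
  by_cases hq : q = p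
  · subst hq
    rw [norm_bmap_sub ht q he]
    have h3 : 1 < Real.exp w.im := Real.one_lt_exp_iff.2 hw0
    nlinarith
  · exact bmap_far ht ht8 hq he hw

theorem bmap_inj {t : ℝ} (ht : 0 < t) (p : ℤ × ℤ) {e : ℂ} (he : ‖e‖ = 1) {w w' : ℂ}
    (hw : ‖w‖ ≤ 1 / 2) (hw' : ‖w'‖ ≤ 1 / 2) (h : bmap t p e w = bmap t p e w') : w = w' := by
  have hte : (t : ℂ) * e ≠ 0 := by
    refine mul_ne_zero (by exact_mod_cast ht.ne') ?_
    intro h
    rw [h, norm_zero] at he
    exact zero_ne_one he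
  unfold bmap at h
  have h1 := mul_left_cancel₀ hte (add_left_cancel h)
  have him : ∀ v : ℂ, ‖v‖ ≤ 1 / 2 → -π < (-(I * v)).im ∧ (-(I * v)).im ≤ π := by
    intro v hv
    have h2 : (-(I * v)).im = -v.re := by simp
    have h3 := abs_le.1 ((Complex.abs_re_le_norm v).trans hv)
    have h4 := Real.pi_gt_three
    rw [h2]
    constructor <;> linarith [h3.1, h3.2]
  have h2 := Complex.exp_inj_of_neg_pi_lt_of_le_pi (him w hw).1 (him w hw).2 (him w' hw').1
    (him w' hw').2 h1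
  exact mul_left_cancel₀ I_ne_zero (neg_injective h2)

/-- G4, boundary charts -/
theorem g4b (hN : 1 ≤ N) (ht : 0 < t) (ht8 : t < 1 / 8) (h : IsBlochHarm (kap N) (t / 2) ψ ω)
    (h1 : G1 t c ψ) (h2 : G2 N t c ψ) (h3 : G3 t c ψ) (h4 : G4d t c ψ ρ)
    (hρ : ∀ z : ℂ, ‖z‖ = t → 0 < ρ z) : G4b t c ψ := by
  intro p e he
  have hhalf : ∀ w ∈ halfDisc (1 / 2), bmap t p e w ∈ ES t := fun w hw =>
    bmap_mem_ES ht ht8 p he hw.1 hw.2
  have hUS : ∀ w : ℂ, ‖w‖ ≤ 1 / 2 → bmap t p e w ∈ US (t / 2) := fun w hw =>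
    bmap_mem_US ht ht8 p he hw
  obtain ⟨U, hU⟩ : ∃ U : Set ℂ, U = bmap t p e ⁻¹' US (t / 2) := ⟨_, rfl⟩
  have hcont : Continuous (bmap t p e) := by
    unfold bmap
    fun_prop
  have hUo : IsOpen U := by
    rw [hU]
    exact (isOpen_US _).preimage hcont
  have hdiff : DifferentiableOn ℂ (fun w : ℂ => (t : ℂ) * e * (cexp (-(I * w)) * -I)) U := by
    refine Differentiable.differentiableOn ?_
    fun_prop
  have hcomp : ∀ i : Fin 8, ∃ g, HarmD (fun w => uMap c ψ (bmap t p e w) i) g U := fun i => by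
    refine uMap_hol h (fun w _ => bmap_hasDerivAt t p e w) hdiff ?_ i
    intro w hw
    rw [hU] at hw
    exact hw
  have hwU : ∀ w ∈ halfDisc (1 / 2), w ∈ U := fun w hw => by
    rw [hU]
    exact hUS w hw.1
  have hcenter : ∀ w : ℂ, w.im = 0 → ‖bmap t p e w - lp p‖ = t := fun w hw => by
    rw [norm_bmap_sub ht p he, hw, Real.exp_zero, mul_one]
  refine ⟨1 / 2, by norm_num, hUS, hhalf, ⟨by norm_num, rfl,
    fun w hw => vec_smooth hUo hcomp (hwU w hw), ?_,
    fun w hw => vec_laplacian hUo hcomp (hwU w hw), ?_, ?_, ?_, ?_⟩⟩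
  · intro w hw
    refine (h1 _ (hhalf w hw)).comp (uMap_differentiableAt h (hUS w hw.1))
      (bmap_hasDerivAt t p e w) ?_
    refine mul_ne_zero (mul_ne_zero (by exact_mod_cast ht.ne') ?_)
      (mul_ne_zero (exp_ne_zero _) (neg_ne_zero.2 I_ne_zero))
    intro h0
    rw [h0, norm_zero] at he
    exact zero_ne_one he
  · intro w hw w' hw' he'
    obtain ⟨q, hq⟩ := h2 _ (hhalf w hw) _ (hhalf w' hw') he'
    have h5 : (N : ℂ) * lp q = (bmap t p e w' - lp p) - (bmap t p e w - lp p) := by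
      linear_combination -hq
    have h6 : ∀ v ∈ halfDisc (1 / 2), ‖bmap t p e v - lp p‖ < 1 / 2 := by
      intro v hv
      rw [norm_bmap_sub ht p he]
      have h7 : v.im ≤ 1 := (((le_abs_self _).trans (Complex.abs_im_le_norm v)).trans hv.1).trans
        (by norm_num)
      have h8 : Real.exp v.im ≤ Real.exp 1 := Real.exp_le_exp.2 h7
      have h9 := Real.exp_one_lt_d9
      have h10 : t * Real.exp v.im ≤ 1 / 8 * 3 := by
        refine mul_le_mul ht8.le (by linarith) (Real.exp_pos _).le (by norm_num)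
      linarith
    have h7 : ‖(N : ℂ) * lp q‖ < 1 := by
      rw [h5]
      have := norm_sub_le (bmap t p e w' - lp p) (bmap t p e w - lp p)
      linarith [h6 w hw, h6 w' hw']
    have h8 := natCast_mul_lp_eq_zero N h7
    rw [h8, add_zero] at hq
    exact bmap_inj ht p he hw.1 hw'.1 hq.symm
  · obtain ⟨V, hV, hVe⟩ := exists_open_image hN (uMap_continuousOn ht h) (uMap_per_ES hN ht h) h2
      (bmap_isOpen ht p he (isOpen_ball (x := (0 : ℂ)) (ε := 1 / 2)))
    refine ⟨V, hV, ?_⟩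
    unfold surf
    rw [hVe]
    ext z
    constructor
    · rintro ⟨_, ⟨hyE, w, hw, rfl⟩, rfl⟩
      rw [mem_ball_zero_iff] at hw
      refine ⟨w, ⟨hw, ?_⟩, rfl⟩
      have h5 := hyE p
      rw [norm_bmap_sub ht p he] at h5
      by_contra hc
      have h6 : Real.exp w.im < 1 := Real.exp_lt_one_iff.2 (not_le.1 hc)
      nlinarith
    · rintro ⟨w, ⟨hw, hw0⟩, rfl⟩
      exact ⟨_, ⟨bmap_mem_ES ht ht8 p he hw.le hw0, w, mem_ball_zero_iff.2 hw, rfl⟩, rfl⟩
  · intro w hw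
    constructor
    · intro h5
      by_contra hc
      have h6 : 0 < w.im := lt_of_le_of_ne hw.2 (Ne.symm hc)
      exact (h3.1 _ (bmap_mem_UST ht ht8 p he hw.1 h6)).ne h5
    · intro h5
      exact h3.2 _ p (hcenter w h5)
  · intro w _ hw0
    refine ⟨ρ (bmap t p e w - lp p), hρ _ (hcenter w hw0), ?_⟩
    rw [h4 p e he w hw0, neg_neg]

end FB.Tp
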