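import Pool.Agent.FB.Iface2

/-! MP_15d50e_gt, module GEO: common interface of the parts G1-G5. -/

set_option autoImplicit false

open Complex Set
open scoped ComplexConjugate Real

namespace FB

/-- The map `w ↦ p + t e exp (-i w)`; `Im w ≥ 0` is outside the hole, `w` real is on the hole boundary. -/
noncomputable def bmap (t : ℝ) (p : ℤ × ℤ) (e : ℂ) (w : ℂ) : ℂ := lp p + t * e * cexp (-(I * w))

/-- G1: `u` is a conformal immersion in a neighbourhood of `ES t` . -/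
def G1 (t c : ℝ) (ψ : ℂ → ℂ) : Prop := ∀ x ∈ ES t, ConformalAt (uMap c ψ) x

/-- G2: `u` is injective on `ES t` modulo `N (ℤ + i ℤ)`. -/
def G2 (N : ℕ) (t c : ℝ) (ψ : ℂ → ℂ) : Prop :=
  ∀ x ∈ ES t, ∀ y ∈ ES t, uMap c ψ x = uMap c ψ y → ∃ p : ℤ × ℤ, y = x + N * lp p

/-- G3: `|u| < 1` outside the closed holes, `|u| = 1` on the hole boundaries. -/
def G3 (t c : ℝ) (ψ : ℂ → ℂ) : Prop :=
  (∀ x ∈ US t, ‖uMap c ψ x‖ < 1) ∧ ∀ x, ∀ p : ℤ × ℤ, ‖x - lp p‖ = t → ‖uMap c ψ x‖ = 1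

/-- G4, interior charts. -/
def G4i (t c : ℝ) (ψ : ℂ → ℂ) : Prop :=
  ∀ x ∈ US t, ∃ r > 0, (∀ w : ℂ, ‖w‖ ≤ r → x + w ∈ US t) ∧
    InteriorChart (surf c t ψ) (uMap c ψ x) r (fun w => uMap c ψ (x + w))

/-- G4, boundary charts. -/
def G4b (t c : ℝ) (ψ : ℂ → ℂ) : Prop :=
  ∀ (p : ℤ × ℤ) (e : ℂ), ‖e‖ = 1 → ∃ r > 0,
    (∀ w : ℂ, ‖w‖ ≤ r → bmap t p e w ∈ US (t / 2)) ∧ (∀ w ∈ halfDisc r, bmap t p e w ∈ ES t) ∧
    BoundaryChart (surf c t ψ) (uMap c ψ (bmap t p e 0)) r (fun w => uMap c ψ (bmap t p e w))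

/-- The derivative of the boundary chart in the inner direction, for real `w`. -/
def G4d (t c : ℝ) (ψ : ℂ → ℂ) (ρ : ℂ → ℝ) : Prop :=
  ∀ (p : ℤ × ℤ) (e : ℂ), ‖e‖ = 1 → ∀ w : ℂ, w.im = 0 →
    fderiv ℝ (fun w => uMap c ψ (bmap t p e w)) w I =
      -(ρ (bmap t p e w - lp p) • uMap c ψ (bmap t p e w))

end FB
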