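import Pool.Agent.FB.Geo.Chart

/-! MP_15d50e_gt, module GEO: the surface is a properly embedded free boundary minimal surface. -/

set_option autoImplicit false

open Complex Set Metric
open scoped ComplexConjugate Real Topology

namespace FB.Tp

variable {N : ℕ} {t c : ℝ} {ψ ω : ℂ → ℂ} {ρ : ℂ → ℝ}

/-- a point of `ES t` which is not in `US t` lies on the boundary of a hole -/
theorem exists_bmap {t : ℝ} (ht : 0 < t) {x : ℂ} (hx : x ∈ ES t) (hx' : x ∉ US t) :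
    ∃ (p : ℤ × ℤ) (e : ℂ), ‖e‖ = 1 ∧ ‖x - lp p‖ = t ∧ bmap t p e 0 = x := by
  unfold US at hx'
  rw [mem_ofPred_eq, not_forall] at hx'
  obtain ⟨p, hp⟩ := hx'
  have h1 : ‖x - lp p‖ = t := le_antisymm (not_lt.1 hp) (hx p)
  have ht0 : (t : ℂ) ≠ 0 := by exact_mod_cast ht.ne'
  refine ⟨p, (x - lp p) / t, ?_, h1, ?_⟩
  · rw [norm_div, h1, Complex.norm_real, Real.norm_eq_abs, abs_of_pos ht, div_self ht.ne']
  · unfold bmap
    rw [mul_zero, neg_zero, Complex.exp_zero, mul_one, mul_div_cancel₀ _ ht0]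
    ring

/-- the surface is a properly embedded free boundary minimal surface -/
theorem isFBMS (hN : 1 ≤ N) (ht : 0 < t) (ht8 : t < 1 / 8)
    (h : IsBlochHarm (kap N) (t / 2) ψ ω) (h3 : G3 t c ψ) (hi : G4i t c ψ) (hb : G4b t c ψ) :
    IsFBMS (surf c t ψ) := by
  have hcase : ∀ y ∈ ES t, y ∈ US t ∨ ∃ (p : ℤ × ℤ) (e : ℂ), ‖e‖ = 1 ∧ ‖y - lp p‖ = t ∧
      bmap t p e 0 = y := by
    intro y hy
    by_cases hy' : y ∈ US t
    · exact Or.inl hy'
    · exact Or.inr (exists_bmap ht hy hy')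
  refine ⟨?_, ?_, ?_, ?_, ?_, ?_⟩
  · refine isCompact_image hN (uMap_continuousOn ht h) (uMap_per_ES hN ht h) (isClosed_ES t)
      (Subset.refl _) ?_
    intro x hx p
    rw [natCast_mul_lp]
    exact add_lp_mem_ES hx _
  · exact (isConnected_ES ht (by linarith)).image _ (uMap_continuousOn ht h)
  · rintro _ ⟨y, hy, rfl⟩
    rcases hcase y hy with hy' | ⟨p, e, -, hp, -⟩
    · exact (h3.1 y hy').le
    · exact (h3.2 y p hp).le
  · have h1 : ‖((t : ℝ) : ℂ) - lp 0‖ = t := by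
      rw [lp_zero, sub_zero, Complex.norm_real, Real.norm_eq_abs, abs_of_pos ht]
    refine ⟨uMap c ψ t, ⟨t, ?_, rfl⟩, h3.2 _ 0 h1⟩
    intro q
    by_cases hq : q = 0
    · rw [hq, h1]
    · have h2 := one_le_norm_lp hq
      have h4 : ‖lp q‖ ≤ ‖((t : ℝ) : ℂ) - lp q‖ + ‖((t : ℝ) : ℂ)‖ := by
        have h5 : lp q = (t : ℂ) - ((t : ℂ) - lp q) := by ring
        conv_lhs => rw [h5]
        rw [add_comm]
        exact norm_sub_le _ _
      rw [Complex.norm_real, Real.norm_eq_abs, abs_of_pos ht] at h4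
      linarith
  · rintro _ ⟨y, hy, rfl⟩ hn
    rcases hcase y hy with hy' | ⟨p, e, -, hp, -⟩
    · obtain ⟨r, -, -, hr⟩ := hi y hy'
      exact ⟨r, _, hr⟩
    · exact absurd (h3.2 y p hp) hn.ne
  · rintro _ ⟨y, hy, rfl⟩ hn
    rcases hcase y hy with hy' | ⟨p, e, he, -, rfl⟩
    · exact absurd hn (h3.1 y hy').ne
    · obtain ⟨r, -, -, -, hr⟩ := hb p e he
      exact ⟨r, _, hr⟩

end FB.Tp
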