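import Pool.Agent.FB.Geo.Mono
import Pool.Agent.FB.Geo.Fbms
import Pool.Agent.FB.GeoA.Max

/-! MP_15d50e_gt, module GEO: `TheoremGEO` from the injectivity statement G2. -/

set_option autoImplicit false

open Complex Set
open scoped ComplexConjugate Real

namespace FB

theorem geo_of_g2 (h2 : ForSmall fun N t c ψ => G2 N t c ψ) : TheoremGEO := by
  refine geo_of ?_ h2 ?_ ?_
  · obtain ⟨η, N₁, h0, h⟩ := g1
    exact ⟨η, N₁, h0, h⟩
  · obtain ⟨η, N₁, h0, h⟩ := g3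
    exact ⟨η, N₁, h0, h⟩
  · intro N η t c σ ψ ω v ν ρ hN H a1 a2 a3
    have hd : G4d t c ψ ρ := g4d H.psi H.tpos H.tlt H.free H.ρrot H.ρconj
    have hi : G4i t c ψ := Tp.g4i hN H.tpos H.psi a1 a2
    have hb : G4b t c ψ := Tp.g4b hN H.tpos H.tlt H.psi a1 a2 a3 hd H.ρpos
    exact ⟨Tp.isFBMS hN H.tpos H.tlt H.psi a3 hi hb, hi, hb⟩

end FB
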