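import Pool.Agent.FB.Geo.Bmap

/-! MP_15d50e_gt, module GEO, part G5: the second eigenfunction is a Steklov eigenfunction. -/

set_option autoImplicit false

open Complex Set Metric InnerProductSpace Laplacian
open scoped ComplexConjugate Real Topology

namespace FB

open Classical in
/-- The real part of `v` as a function on the surface. -/
noncomputable def vOn (t c : ℝ) (ψ v : ℂ → ℂ) (q : Eu 8) : ℝ :=
  if h : ∃ x ∈ ES t, uMap c ψ x = q then (v h.choose).re else 0

theorem lp_mul (N : ℕ) (p : ℤ × ℤ) : lp ((N : ℤ) * p.1, (N : ℤ) * p.2) = N * lp p := by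
  simp only [lp]
  push_cast
  ring

theorem chi_kap' {N : ℕ} (hN : 0 < N) (p : ℤ × ℤ) :
    chi (kap' N) ((N : ℤ) * p.1, (N : ℤ) * p.2) = 1 := by
  have hN' : (N : ℝ) ≠ 0 := by positivity
  have h1 : ((kap' N).re * (((N : ℤ) * p.1 : ℤ) : ℝ) + (kap' N).im * (((N : ℤ) * p.2 : ℤ) : ℝ) : ℝ) =
      p.1 * (2 * π) := by
    simp only [kap', ofReal_re, ofReal_im]
    push_cast
    field_simp
    ring
  unfold chi
  rw [h1]
  have h2 := exp_int_mul_two_pi_mul_I p.1
  rw [← h2]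
  congr 1
  push_cast
  ring

theorem vOn_eq {N : ℕ} (hN : 0 < N) {t c : ℝ} (ht : 0 < t) {ψ v ν : ℂ → ℂ} (h2 : G2 N t c ψ)
    (hv : IsBlochHarm (kap' N) (t / 2) v ν) {x : ℂ} (hx : x ∈ ES t) :
    vOn t c ψ v (uMap c ψ x) = (v x).re := by
  have h : ∃ y ∈ ES t, uMap c ψ y = uMap c ψ x := ⟨x, hx, rfl⟩
  unfold vOn
  rw [dif_pos h]
  obtain ⟨hy, he⟩ := h.choose_spec
  obtain ⟨p, hp⟩ := h2 _ hy _ hx he
  have h3 := hv.bloch _ (ES_subset_US (by linarith) hy) ((N : ℤ) * p.1, (N : ℤ) * p.2)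
  rw [lp_mul, ← hp, chi_kap' hN, one_mul] at h3
  rw [h3]

theorem ES_cases {t : ℝ} {x : ℂ} (hx : x ∈ ES t) : x ∈ US t ∨ ∃ p : ℤ × ℤ, ‖x - lp p‖ = t := by
  by_cases h : x ∈ US t
  · exact Or.inl h
  · right
    simp only [US, mem_ofPred_eq, not_forall, not_lt] at h
    obtain ⟨p, hp⟩ := h
    exact ⟨p, le_antisymm hp (hx p)⟩

/-- Every point of a hole boundary is `bmap t p e 0`. -/
theorem exists_bmap {t : ℝ} (ht : 0 < t) {x : ℂ} {p : ℤ × ℤ} (h : ‖x - lp p‖ = t) :
    ∃ e : ℂ, ‖e‖ = 1 ∧ bmap t p e 0 = x := by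
  have ht' : (t : ℂ) ≠ 0 := by exact_mod_cast ht.ne'
  refine ⟨(x - lp p) / t, ?_, ?_⟩
  · rw [norm_div, h, norm_real, Real.norm_of_nonneg ht.le, div_self ht.ne']
  · unfold bmap
    rw [mul_div_cancel₀ _ ht']
    simp

/-- G5. PROOF. In the charts of `G4i`, `G4b` the function is `Re v` composed with a holomorphic map. -/
theorem g5_steklov {N : ℕ} (hN : 0 < N) {η t c σ : ℝ} {ψ ω v ν : ℂ → ℂ} {ρ : ℂ → ℝ}
    (H : IsSol N η t c σ ψ ω v ν ρ) (h2 : G2 N t c ψ) (h3 : G3 t c ψ) (h4i : G4i t c ψ)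
    (h4b : G4b t c ψ) : IsSteklov (surf c t ψ) σ (vOn t c ψ v) := by
  have ht := H.tpos
  have hre := H.vharm.re
  have hUo := isOpen_US (t / 2)
  constructor
  · rintro q ⟨x, hx, rfl⟩ hq
    rcases ES_cases hx with hxU | ⟨p, hp⟩
    · obtain ⟨r, hr, hm, hf⟩ := h4i x hxU
      refine ⟨r, _, hf, fun w hw => ?_⟩
      have hVo : IsOpen {w : ℂ | x + w ∈ US (t / 2)} := hUo.preimage (by fun_prop)
      have hD : HarmD (fun w => (v (x + w)).re) _ {w : ℂ | x + w ∈ US (t / 2)} :=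
        hre.comp (φ := fun w => x + w) (φ' := fun _ => 1)
          (fun w _ => by simpa using (hasDerivAt_id w).const_add x)
          (differentiableOn_const _) (fun w hw => hw)
      have hev : (fun w => vOn t c ψ v (uMap c ψ (x + w))) =ᶠ[𝓝 w] fun w => (v (x + w)).re := by
        have hb : ball (0 : ℂ) r ∈ 𝓝 w := isOpen_ball.mem_nhds (by simpa using hw)
        filter_upwards [hb] with w' hw'
        exact vOn_eq hN ht h2 H.vharm (US_subset_ES t (hm w' (by
          have := mem_ball_zero_iff.1 hw'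
          exact this.le)))
      have hwV : w ∈ {w : ℂ | x + w ∈ US (t / 2)} :=
        ES_subset_US (by linarith) (US_subset_ES t (hm w hw.le))
      refine ⟨(hD.contDiffAt hVo hwV).congr_of_eventuallyEq hev, ?_⟩
      rw [(laplacian_congr_nhds hev).eq_of_nhds]
      exact hD.laplacian hVo hwV
    · exact absurd (h3.2 x p hp) hq.ne
  · rintro q ⟨x, hx, rfl⟩ hq
    rcases ES_cases hx with hxU | ⟨p, hp⟩
    · exact absurd hq (h3.1 x hxU).ne
    · obtain ⟨e, he, rfl⟩ := exists_bmap ht hp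
      obtain ⟨r, hr, hm, hm', hf⟩ := h4b p e he
      have hcont : Continuous (bmap t p e) :=
        continuous_iff_continuousAt.2 fun w => (bmap_hasDerivAt t p e w).continuousAt
      have hVo : IsOpen {w : ℂ | bmap t p e w ∈ US (t / 2)} := hUo.preimage hcont
      have hD : HarmD (fun w => (v (bmap t p e w)).re) _ {w : ℂ | bmap t p e w ∈ US (t / 2)} :=
        hre.comp (fun w _ => bmap_hasDerivAt t p e w) (bmap_diff t p e _) (fun w hw => hw)
      refine ⟨r, _, hf, fun w => (v (bmap t p e w)).re, fun w hw => ⟨?_, ?_, ?_⟩,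
        fun w hw him => ?_⟩
      · exact (vOn_eq hN ht h2 H.vharm (hm' w hw)).symm
      · exact hD.contDiffAt hVo (hm w hw.1)
      · exact hD.laplacian hVo (hm w hw.1)
      · have hzn : ‖bmap t p e w - lp p‖ = t := by
          rw [bmap_norm ht p he, him, Real.exp_zero, mul_one]
        have h5 : ‖fderiv ℝ (fun w => uMap c ψ (bmap t p e w)) w I‖ =
            ρ (bmap t p e w - lp p) := by
          rw [g4d H.psi ht H.tlt H.free H.ρrot H.ρconj p e he w him, norm_neg, norm_smul,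
            h3.2 _ p hzn, mul_one, Real.norm_of_nonneg (H.ρpos _ hzn).le]
        obtain ⟨L, hL, hLI⟩ := bmap_radial (ρ := fun z => σ * ρ z) H.vharm ht H.tlt
          (fun z hz => H.vfree z hz) p he him (ContinuousLinearMap.id ℝ ℂ) p rfl (fun _ => rfl)
        have h6 : HasFDerivAt (fun w => (v (bmap t p e w)).re) (reCLM.comp L) w :=
          reCLM.hasFDerivAt.comp w hL
        rw [h6.fderiv, h5]
        have h7 : (reCLM.comp L) I = (L I).re := rfl
        rw [h7, hLI]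
        simp only [ContinuousLinearMap.coe_id', id_eq]
        rw [← ofReal_neg, re_ofReal_mul]
        ring

/-- G5. -/
theorem g5 {N : ℕ} (hN : 0 < N) {η t c σ : ℝ} {ψ ω v ν : ℂ → ℂ} {ρ : ℂ → ℝ}
    (H : IsSol N η t c σ ψ ω v ν ρ) (h2 : G2 N t c ψ) (h3 : G3 t c ψ) (h4i : G4i t c ψ)
    (h4b : G4b t c ψ) : IsSteklovEigenvalue (surf c t ψ) σ := by
  have ht := H.tpos
  have ht8 := H.tlt
  have hn : ‖(t : ℂ)‖ = t := by rw [norm_real, Real.norm_of_nonneg ht.le]
  have hmem : (t : ℂ) ∈ ES t := by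
    refine mem_ES_of (p := 0) ?_ ?_
    · simp only [lp, Prod.fst_zero, Prod.snd_zero, Int.cast_zero, zero_mul, add_zero, sub_zero, hn]
      exact le_rfl
    · simp only [lp, Prod.fst_zero, Prod.snd_zero, Int.cast_zero, zero_mul, add_zero, sub_zero, hn]
      linarith
  refine ⟨vOn t c ψ v, g5_steklov hN H h2 h3 h4i h4b, uMap c ψ t, ⟨t, hmem, rfl⟩, ?_⟩
  rw [vOn_eq hN ht h2 H.vharm hmem]
  have h1 := H.vnear t hn
  have h5 := (abs_re_le_norm (v t - 1)).trans h1
  rw [sub_re, one_re, abs_le] at h5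
  intro h6
  rw [h6] at h5
  linarith [h5.1]

end FB
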