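import Pool.Agent.FB.Geo.Top

/-! MP_15d50e_gt, module GEO: symmetries of the perforated plane and periodicity of the map `u`. -/

set_option autoImplicit false

open Complex Set
open scoped ComplexConjugate Real

namespace FB.Tp

theorem I_mul_lp (p : ℤ × ℤ) : I * lp p = lp (-p.2, p.1) := by
  apply Complex.ext <;> simp

theorem conj_lp (p : ℤ × ℤ) : conj (lp p) = lp (p.1, -p.2) := by
  apply Complex.ext <;> simp

theorem norm_I_mul (z : ℂ) : ‖I * z‖ = ‖z‖ := by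
  rw [norm_mul, norm_I, one_mul]

theorem norm_conj' (z : ℂ) : ‖conj z‖ = ‖z‖ := RCLike.norm_conj z

/-- the distance of `I x` to a lattice point is the distance of `x` to a lattice point -/
theorem I_mul_sub_lp (x : ℂ) (p : ℤ × ℤ) : I * x - lp p = I * (x - lp (p.2, -p.1)) := by
  have : lp p = I * lp (p.2, -p.1) := by
    rw [I_mul_lp]
    simp
  rw [this]
  ring

theorem conj_sub_lp (x : ℂ) (p : ℤ × ℤ) : conj x - lp p = conj (x - lp (p.1, -p.2)) := by
  rw [map_sub, conj_lp]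
  simp

theorem neg_sub_lp (x : ℂ) (p : ℤ × ℤ) : -x - lp p = -(x - lp (-p)) := by
  rw [lp_neg]
  ring

theorem I_mul_mem_US {s : ℝ} {x : ℂ} (hx : x ∈ US s) : I * x ∈ US s := by
  intro p
  rw [I_mul_sub_lp, norm_I_mul]
  exact hx _

theorem conj_mem_US {s : ℝ} {x : ℂ} (hx : x ∈ US s) : conj x ∈ US s := by
  intro p
  rw [conj_sub_lp, norm_conj']
  exact hx _

theorem neg_mem_US {s : ℝ} {x : ℂ} (hx : x ∈ US s) : -x ∈ US s := by
  intro p
  rw [neg_sub_lp, norm_neg]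
  exact hx _

theorem I_mul_mem_ES {s : ℝ} {x : ℂ} (hx : x ∈ ES s) : I * x ∈ ES s := by
  intro p
  rw [I_mul_sub_lp, norm_I_mul]
  exact hx _

theorem conj_mem_ES {s : ℝ} {x : ℂ} (hx : x ∈ ES s) : conj x ∈ ES s := by
  intro p
  rw [conj_sub_lp, norm_conj']
  exact hx _

theorem neg_mem_ES {s : ℝ} {x : ℂ} (hx : x ∈ ES s) : -x ∈ ES s := by
  intro p
  rw [neg_sub_lp, norm_neg]
  exact hx _

/-- the character `chi (kap N)` is trivial on multiples of `N` -/
theorem chi_kap_mul {N : ℕ} (hN : 1 ≤ N) (p : ℤ × ℤ) : chi (kap N) (N * p.1, N * p.2) = 1 := by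
  have hN0 : (N : ℝ) ≠ 0 := by
    have : (0 : ℝ) < N := by exact_mod_cast hN
    exact this.ne'
  have h1 : (kap N).re = 2 * π / N := by
    simp [kap]
  have h2 : (kap N).im = 4 * π / N := by
    simp only [kap, mul_im, ofReal_re, add_im, one_im, im_ofNat, I_im, I_re, ofReal_im, re_ofNat]
    simp
    ring
  unfold chi
  rw [h1, h2]
  have h3 : ((2 * π / N * ((N * p.1 : ℤ) : ℝ) + 4 * π / N * ((N * p.2 : ℤ) : ℝ) : ℝ) : ℂ) * I =
      ((p.1 + 2 * p.2 : ℤ) : ℂ) * (2 * π * I) := by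
    have h4 : (2 * π / N * ((N * p.1 : ℤ) : ℝ) + 4 * π / N * ((N * p.2 : ℤ) : ℝ) : ℝ) =
        (p.1 + 2 * p.2) * (2 * π) := by
      push_cast
      field_simp
      ring
    rw [h4]
    push_cast
    ring
  rw [h3]
  exact Complex.exp_int_mul_two_pi_mul_I _

theorem chi_kap'_mul {N : ℕ} (hN : 1 ≤ N) (p : ℤ × ℤ) : chi (kap' N) (N * p.1, N * p.2) = 1 := by
  have hN0 : (N : ℝ) ≠ 0 := by
    have : (0 : ℝ) < N := by exact_mod_cast hN
    exact this.ne'
  have h1 : (kap' N).re = 2 * π / N := by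
    simp [kap']
  have h2 : (kap' N).im = 0 := by
    simp [kap']
  unfold chi
  rw [h1, h2]
  have h3 : ((2 * π / N * ((N * p.1 : ℤ) : ℝ) + 0 * ((N * p.2 : ℤ) : ℝ) : ℝ) : ℂ) * I =
      ((p.1 : ℤ) : ℂ) * (2 * π * I) := by
    have h4 : (2 * π / N * ((N * p.1 : ℤ) : ℝ) + 0 * ((N * p.2 : ℤ) : ℝ) : ℝ) =
        p.1 * (2 * π) := by
      push_cast
      field_simp
      ring
    rw [h4]
    push_cast
    ring
  rw [h3]
  exact Complex.exp_int_mul_two_pi_mul_I _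

/-- a Bloch function with momentum `kap N` is periodic with respect to `N (ℤ + i ℤ)` -/
theorem per_psi {N : ℕ} (hN : 1 ≤ N) {s : ℝ} {ψ ω : ℂ → ℂ} (h : IsBlochHarm (kap N) s ψ ω)
    {x : ℂ} (hx : x ∈ US s) (p : ℤ × ℤ) : ψ (x + N * lp p) = ψ x := by
  rw [natCast_mul_lp, h.bloch x hx, chi_kap_mul hN, one_mul]

theorem per_v {N : ℕ} (hN : 1 ≤ N) {s : ℝ} {ψ ω : ℂ → ℂ}
    (h : IsBlochHarm (kap' N) s ψ ω) {x : ℂ} (hx : x ∈ US s) (p : ℤ × ℤ) :
    ψ (x + N * lp p) = ψ x := by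
  rw [natCast_mul_lp, h.bloch x hx, chi_kap'_mul hN, one_mul]

/-- the map `u` is periodic -/
theorem uMap_per {N : ℕ} (hN : 1 ≤ N) {s c : ℝ} {ψ ω : ℂ → ℂ} (h : IsBlochHarm (kap N) s ψ ω)
    {x : ℂ} (hx : x ∈ US s) (p : ℤ × ℤ) : uMap c ψ (x + N * lp p) = uMap c ψ x := by
  have e1 : ψ (x + N * lp p) = ψ x := per_psi hN h hx p
  have e2 : ψ (I * (x + N * lp p)) = ψ (I * x) := by
    have : I * (x + N * lp p) = I * x + N * lp (-p.2, p.1) := by
      rw [← I_mul_lp]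
      ring
    rw [this]
    exact per_psi hN h (I_mul_mem_US hx) _
  have e3 : ψ (conj (x + N * lp p)) = ψ (conj x) := by
    have : conj (x + N * lp p) = conj x + N * lp (p.1, -p.2) := by
      rw [map_add, map_mul, conj_lp, Complex.conj_natCast]
    rw [this]
    exact per_psi hN h (conj_mem_US hx) _
  have e4 : ψ (I * conj (x + N * lp p)) = ψ (I * conj x) := by
    have : I * conj (x + N * lp p) = I * conj x + N * lp (p.2, p.1) := by
      have h5 : I * lp (p.1, -p.2) = lp (p.2, p.1) := by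
        rw [I_mul_lp]
        simp
      rw [map_add, map_mul, conj_lp, Complex.conj_natCast, ← h5]
      ring
    rw [this]
    exact per_psi hN h (I_mul_mem_US (conj_mem_US hx)) _
  unfold uMap
  rw [e1, e2, e3, e4]

/-- `‖u‖²` in terms of `ψ` -/
theorem norm_sq_uMap (c : ℝ) (ψ : ℂ → ℂ) (x : ℂ) :
    ‖uMap c ψ x‖ ^ 2 =
      c ^ 2 * (‖ψ x‖ ^ 2 + ‖ψ (I * x)‖ ^ 2 + ‖ψ (conj x)‖ ^ 2 + ‖ψ (I * conj x)‖ ^ 2) := by
  rw [EuclideanSpace.norm_sq_eq]
  simp only [uMap, Real.norm_eq_abs, sq_abs, Fin.sum_univ_succ, Finset.univ_eq_empty,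
    Finset.sum_empty, Matrix.cons_val_zero, Matrix.cons_val_succ]
  rw [← Complex.normSq_eq_norm_sq, ← Complex.normSq_eq_norm_sq, ← Complex.normSq_eq_norm_sq,
    ← Complex.normSq_eq_norm_sq, Complex.normSq_apply, Complex.normSq_apply, Complex.normSq_apply,
    Complex.normSq_apply]
  ring

end FB.Tp
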