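import Pool.Agent.FB.Geo.Common

/-! MP_15d50e_gt, module GEO: topology of the perforated plane and of its image. -/

set_option autoImplicit false

open Complex Set
open scoped ComplexConjugate Real

namespace FB.Tp

/-! ### The lattice -/

@[simp] theorem lp_re (p : ℤ × ℤ) : (lp p).re = p.1 := by
  simp [lp]

@[simp] theorem lp_im (p : ℤ × ℤ) : (lp p).im = p.2 := by
  simp [lp]

theorem lp_zero : lp 0 = 0 := by
  simp [lp]

theorem lp_add (p q : ℤ × ℤ) : lp (p + q) = lp p + lp q := by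
  apply Complex.ext <;> simp

theorem lp_sub (p q : ℤ × ℤ) : lp (p - q) = lp p - lp q := by
  apply Complex.ext <;> simp

theorem lp_neg (p : ℤ × ℤ) : lp (-p) = -lp p := by
  apply Complex.ext <;> simp

/-- multiples of lattice points are lattice points -/
theorem natCast_mul_lp (N : ℕ) (p : ℤ × ℤ) : (N : ℂ) * lp p = lp (N * p.1, N * p.2) := by
  apply Complex.ext <;> simp

theorem one_le_norm_lp {p : ℤ × ℤ} (hp : p ≠ 0) : 1 ≤ ‖lp p‖ := by
  by_cases h1 : p.1 = 0
  · have h2 : p.2 ≠ 0 := by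
      intro h2
      exact hp (Prod.ext h1 h2)
    have h3 : (1 : ℝ) ≤ |(lp p).im| := by
      rw [lp_im]
      have := Int.one_le_abs h2
      exact_mod_cast this
    exact h3.trans (Complex.abs_im_le_norm _)
  · have h3 : (1 : ℝ) ≤ |(lp p).re| := by
      rw [lp_re]
      have := Int.one_le_abs h1
      exact_mod_cast this
    exact h3.trans (Complex.abs_re_le_norm _)

/-- the lattice is closed -/
theorem isClosed_range_lp : IsClosed (range lp) := by
  refine Metric.isClosed_of_pairwise_le_dist (ε := 1) one_pos ?_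
  rintro _ ⟨p, rfl⟩ _ ⟨q, rfl⟩ hpq
  rw [dist_eq_norm, ← lp_sub]
  refine one_le_norm_lp ?_
  intro h
  apply hpq
  rw [sub_eq_zero.1 h]

theorem US_eq (s : ℝ) : US s = {x | s < Metric.infDist x (range lp)} := by
  ext x
  constructor
  · intro hx
    obtain ⟨y, ⟨q, rfl⟩, hy⟩ := isClosed_range_lp.exists_infDist_eq_dist (range_nonempty lp) x
    rw [mem_ofPred_eq, hy, dist_eq_norm]
    exact hx q
  · intro hx p
    rw [← dist_eq_norm]
    exact lt_of_lt_of_le hx (Metric.infDist_le_dist_of_mem (mem_range_self p))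

theorem isOpen_US (s : ℝ) : IsOpen (US s) := by
  rw [US_eq]
  exact isOpen_lt continuous_const (Metric.continuous_infDist_pt _)

theorem isClosed_ES (t : ℝ) : IsClosed (ES t) := by
  have : ES t = ⋂ p : ℤ × ℤ, {x | t ≤ ‖x - lp p‖} := by
    ext x
    simp [ES]
  rw [this]
  exact isClosed_iInter fun p => isClosed_le continuous_const (by fun_prop)

theorem US_subset_ES (t : ℝ) : US t ⊆ ES t := fun _ hx p => (hx p).le

theorem ES_subset_US {s t : ℝ} (h : s < t) : ES t ⊆ US s := fun _ hx p => h.trans_le (hx p)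

theorem US_anti {s t : ℝ} (h : s ≤ t) : US t ⊆ US s := fun _ hx p => h.trans_lt (hx p)

theorem add_lp_mem_ES {t : ℝ} {x : ℂ} (hx : x ∈ ES t) (q : ℤ × ℤ) : x + lp q ∈ ES t := by
  intro p
  have := hx (p - q)
  rw [lp_sub] at this
  convert this using 2
  ring

theorem add_lp_mem_US {t : ℝ} {x : ℂ} (hx : x ∈ US t) (q : ℤ × ℤ) : x + lp q ∈ US t := by
  intro p
  have := hx (p - q)
  rw [lp_sub] at this
  convert this using 2
  ring

/-- a nearest lattice point -/
theorem exists_near (x : ℂ) : ∃ p : ℤ × ℤ, |(x - lp p).re| ≤ 1 / 2 ∧ |(x - lp p).im| ≤ 1 / 2 := by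
  refine ⟨(round x.re, round x.im), ?_, ?_⟩
  · rw [sub_re, lp_re]
    exact abs_sub_round _
  · rw [sub_im, lp_im]
    exact abs_sub_round _

/-- the other lattice points are far away -/
theorem far {x : ℂ} {p q : ℤ × ℤ} (h1 : |(x - lp p).re| ≤ 1 / 2) (h2 : |(x - lp p).im| ≤ 1 / 2)
    (hq : q ≠ p) : 1 / 2 ≤ ‖x - lp q‖ := by
  rw [sub_re, lp_re] at h1
  rw [sub_im, lp_im] at h2
  by_cases h : q.1 = p.1
  · have h3 : q.2 ≠ p.2 := fun h3 => hq (Prod.ext h h3)
    have h4 : (1 : ℝ) ≤ |((p.2 : ℝ) - q.2)| := by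
      have := Int.one_le_abs (sub_ne_zero.2 h3.symm)
      exact_mod_cast this
    have h5 : |(x - lp q).im| ≤ ‖x - lp q‖ := Complex.abs_im_le_norm _
    rw [sub_im, lp_im] at h5
    have h6 : |((p.2 : ℝ) - q.2)| ≤ |x.im - q.2| + |x.im - p.2| := by
      have : ((p.2 : ℝ) - q.2) = (x.im - q.2) - (x.im - p.2) := by ring
      rw [this]
      exact abs_sub _ _
    linarith
  · have h4 : (1 : ℝ) ≤ |((p.1 : ℝ) - q.1)| := by
      have := Int.one_le_abs (sub_ne_zero.2 (Ne.symm h))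
      exact_mod_cast this
    have h5 : |(x - lp q).re| ≤ ‖x - lp q‖ := Complex.abs_re_le_norm _
    rw [sub_re, lp_re] at h5
    have h6 : |((p.1 : ℝ) - q.1)| ≤ |x.re - q.1| + |x.re - p.1| := by
      have : ((p.1 : ℝ) - q.1) = (x.re - q.1) - (x.re - p.1) := by ring
      rw [this]
      exact abs_sub _ _
    linarith

/-! ### Connectedness of the perforated plane -/

/-- the grid of lines through the points half way between lattice points -/
def grid : Set ℂ := {x | (∃ m : ℤ, x.re = m + 1 / 2) ∨ ∃ m : ℤ, x.im = m + 1 / 2}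

theorem half_le (m q : ℤ) : 1 / 2 ≤ |((m : ℝ) + 1 / 2) - q| := by
  rcases le_or_gt q m with h | h
  · have h1 : (q : ℝ) ≤ m := by exact_mod_cast h
    rw [abs_of_nonneg (by linarith)]
    linarith
  · have h1 : (m : ℝ) + 1 ≤ q := by exact_mod_cast h
    rw [abs_of_nonpos (by linarith)]
    linarith

theorem grid_subset {t : ℝ} (ht : t ≤ 1 / 2) : grid ⊆ ES t := by
  rintro x (⟨m, hm⟩ | ⟨m, hm⟩) q
  · refine ht.trans ((half_le m q.1).trans ?_)
    have := Complex.abs_re_le_norm (x - lp q)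
    rwa [sub_re, lp_re, hm] at this
  · refine ht.trans ((half_le m q.2).trans ?_)
    have := Complex.abs_im_le_norm (x - lp q)
    rwa [sub_im, lp_im, hm] at this

theorem vert_preconn (a : ℝ) : IsPreconnected {x : ℂ | x.re = a} := by
  refine Convex.isPreconnected ?_
  have : {x : ℂ | x.re = a} = Complex.reLm ⁻¹' {a} := rfl
  rw [this]
  exact (convex_singleton a).linear_preimage _

theorem horiz_preconn (a : ℝ) : IsPreconnected {x : ℂ | x.im = a} := by
  refine Convex.isPreconnected ?_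
  have : {x : ℂ | x.im = a} = Complex.imLm ⁻¹' {a} := rfl
  rw [this]
  exact (convex_singleton a).linear_preimage _

theorem grid_preconn : IsPreconnected grid := by
  refine isPreconnected_of_forall (⟨1 / 2, 1 / 2⟩ : ℂ) ?_
  rintro y (⟨m, hm⟩ | ⟨m, hm⟩)
  · refine ⟨{x : ℂ | x.re = m + 1 / 2} ∪ {x : ℂ | x.im = 1 / 2}, ?_, Or.inr rfl, Or.inl hm, ?_⟩
    · rintro x (h | h)
      · exact Or.inl ⟨m, h⟩
      · exact Or.inr ⟨0, by simpa using h⟩
    · exact IsPreconnected.union (⟨m + 1 / 2, 1 / 2⟩ : ℂ) rfl rfl (vert_preconn _) (horiz_preconn _)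
  · refine ⟨{x : ℂ | x.im = m + 1 / 2} ∪ {x : ℂ | x.re = 1 / 2}, ?_, Or.inr rfl, Or.inl hm, ?_⟩
    · rintro x (h | h)
      · exact Or.inr ⟨m, h⟩
      · exact Or.inl ⟨0, by simpa using h⟩
    · exact IsPreconnected.union (⟨1 / 2, m + 1 / 2⟩ : ℂ) rfl rfl (horiz_preconn _) (vert_preconn _)

/-- a number of absolute value `1/2` plus an integer is a half-integer -/
theorem half_int {a : ℝ} (h : |a| = 1 / 2) (p : ℤ) : ∃ m : ℤ, (p : ℝ) + a = m + 1 / 2 := by
  rcases abs_choice a with h1 | h1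
  · exact ⟨p, by linarith⟩
  · refine ⟨p - 1, ?_⟩
    push_cast
    linarith

theorem isConnected_ES {t : ℝ} (ht : 0 < t) (ht2 : t ≤ 1 / 2) : IsConnected (ES t) := by
  have hbase : (⟨1 / 2, 1 / 2⟩ : ℂ) ∈ grid := Or.inl ⟨0, by simp⟩
  refine ⟨⟨_, grid_subset ht2 hbase⟩, isPreconnected_of_forall (⟨1 / 2, 1 / 2⟩ : ℂ) ?_⟩
  intro y hy
  obtain ⟨p, hp1, hp2⟩ := exists_near y
  obtain ⟨d, hd⟩ : ∃ d : ℂ, d = y - lp p := ⟨_, rfl⟩
  rw [← hd] at hp1 hp2
  obtain ⟨M, hM⟩ : ∃ M : ℝ, M = max |d.re| |d.im| := ⟨_, rfl⟩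
  have hMpos : 0 < M := by
    by_contra hc
    have h1 : |d.re| ≤ 0 := (le_max_left _ _).trans (hM ▸ not_lt.1 hc)
    have h2 : |d.im| ≤ 0 := (le_max_right _ _).trans (hM ▸ not_lt.1 hc)
    have h3 : d = 0 := Complex.ext (abs_nonpos_iff.1 h1) (abs_nonpos_iff.1 h2)
    have h4 := hy p
    rw [← hd, h3, norm_zero] at h4
    linarith
  have hMle : M ≤ 1 / 2 := by
    rw [hM]
    exact max_le hp1 hp2
  obtain ⟨s, hs⟩ : ∃ s : ℝ, s = 1 / (2 * M) := ⟨_, rfl⟩
  have hs1 : 1 ≤ s := by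
    rw [hs, le_div_iff₀ (by positivity)]
    linarith
  have hsM : s * M = 1 / 2 := by
    rw [hs]
    field_simp
  have key : ∀ r : ℝ, 1 ≤ r → r ≤ s → lp p + r * d ∈ ES t := by
    intro r hr1 hrs q
    by_cases hq : q = p
    · subst hq
      have h1 : lp q + r * d - lp q = r * d := by ring
      rw [h1, norm_mul, Complex.norm_real, Real.norm_eq_abs, abs_of_nonneg (by linarith)]
      have h2 := hy q
      rw [← hd] at h2
      nlinarith [norm_nonneg d]
    · refine ht2.trans (far (p := p) ?_ ?_ hq)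
      · have h1 : lp p + r * d - lp p = r * d := by ring
        rw [h1]
        have h2 : ((r : ℂ) * d).re = r * d.re := by simp
        rw [h2, abs_mul, abs_of_nonneg (by linarith : (0 : ℝ) ≤ r)]
        have h3 : |d.re| ≤ M := hM ▸ le_max_left _ _
        calc r * |d.re| ≤ s * M := mul_le_mul hrs h3 (abs_nonneg _) (by linarith)
          _ = 1 / 2 := hsM
      · have h1 : lp p + r * d - lp p = r * d := by ring
        rw [h1]
        have h2 : ((r : ℂ) * d).im = r * d.im := by simp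
        rw [h2, abs_mul, abs_of_nonneg (by linarith : (0 : ℝ) ≤ r)]
        have h3 : |d.im| ≤ M := hM ▸ le_max_right _ _
        calc r * |d.im| ≤ s * M := mul_le_mul hrs h3 (abs_nonneg _) (by linarith)
          _ = 1 / 2 := hsM
  have hz : lp p + s * d ∈ grid := by
    rcases max_choice |d.re| |d.im| with h | h
    · left
      have h1 : |s * d.re| = 1 / 2 := by
        rw [abs_mul, abs_of_nonneg (by linarith : (0 : ℝ) ≤ s), ← h, ← hM, hsM]
      obtain ⟨m, hm⟩ := half_int h1 p.1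
      refine ⟨m, ?_⟩
      rw [← hm]
      simp
    · right
      have h1 : |s * d.im| = 1 / 2 := by
        rw [abs_mul, abs_of_nonneg (by linarith : (0 : ℝ) ≤ s), ← h, ← hM, hsM]
      obtain ⟨m, hm⟩ := half_int h1 p.2
      refine ⟨m, ?_⟩
      rw [← hm]
      simp
  have hyd : y = lp p + ((1 : ℝ) : ℂ) * d := by
    rw [hd]
    push_cast
    ring
  refine ⟨segment ℝ y (lp p + s * d) ∪ grid, ?_, Or.inr hbase, Or.inl (left_mem_segment ℝ _ _), ?_⟩
  · rintro x (hx | hx)
    · obtain ⟨a, b, ha, hb, hab, rfl⟩ := hx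
      have h1 : a • y + b • (lp p + s * d) = lp p + ((a + b * s : ℝ) : ℂ) * d := by
        rw [hyd, Complex.real_smul, Complex.real_smul]
        have : (a : ℂ) + b = 1 := by exact_mod_cast hab
        push_cast
        linear_combination (lp p) * this
      rw [h1]
      refine key _ ?_ ?_
      · nlinarith
      · nlinarith
    · exact grid_subset ht2 hx
  · exact IsPreconnected.union _ (right_mem_segment ℝ _ _) hz
      (convex_segment _ _).isPreconnected grid_preconn

/-! ### Images of subsets of the perforated plane under a periodic map -/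

section Image

variable {E : Type*} [TopologicalSpace E]

/-- the image of a closed periodic set is compact -/
theorem isCompact_image {N : ℕ} (hN : 1 ≤ N) {t : ℝ} {u : ℂ → E} (hc : ContinuousOn u (ES t))
    (hper : ∀ x ∈ ES t, ∀ p : ℤ × ℤ, u (x + N * lp p) = u x) {Z : Set ℂ} (hZ : IsClosed Z)
    (hZE : Z ⊆ ES t) (hZper : ∀ x ∈ Z, ∀ p : ℤ × ℤ, x + N * lp p ∈ Z) : IsCompact (u '' Z) := by
  have hNpos : (0 : ℝ) < N := by exact_mod_cast hN
  obtain ⟨K, hK⟩ : ∃ K : Set ℂ, K = Icc (0 : ℝ) N ×ℂ Icc (0 : ℝ) N := ⟨_, rfl⟩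
  have hKc : IsCompact K := by
    rw [hK]
    exact isCompact_Icc.reProdIm isCompact_Icc
  have h1 : u '' Z = u '' (Z ∩ K) := by
    refine Subset.antisymm ?_ (image_mono inter_subset_left)
    rintro _ ⟨y, hy, rfl⟩
    refine ⟨y + N * lp (-⌊y.re / N⌋, -⌊y.im / N⌋), ⟨hZper y hy _, ?_⟩, hper y (hZE hy) _⟩
    rw [hK, mem_reProdIm]
    constructor
    · have h2 : (y + N * lp (-⌊y.re / N⌋, -⌊y.im / N⌋)).re = y.re - N * ⌊y.re / N⌋ := by
        simp
        ring
      rw [h2, mem_Icc]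
      have h3 := Int.floor_le (y.re / N)
      have h4 := (Int.lt_floor_add_one (y.re / N)).le
      rw [le_div_iff₀ hNpos] at h3
      rw [div_le_iff₀ hNpos] at h4
      constructor <;> nlinarith
    · have h2 : (y + N * lp (-⌊y.re / N⌋, -⌊y.im / N⌋)).im = y.im - N * ⌊y.im / N⌋ := by
        simp
        ring
      rw [h2, mem_Icc]
      have h3 := Int.floor_le (y.im / N)
      have h4 := (Int.lt_floor_add_one (y.im / N)).le
      rw [le_div_iff₀ hNpos] at h3
      rw [div_le_iff₀ hNpos] at h4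
      constructor <;> nlinarith
  rw [h1]
  exact (hKc.inter_left hZ).image_of_continuousOn (hc.mono (inter_subset_left.trans hZE))

/-- the image of a relatively open set is relatively open in the image -/
theorem exists_open_image [T2Space E] {N : ℕ} (hN : 1 ≤ N) {t : ℝ} {u : ℂ → E}
    (hc : ContinuousOn u (ES t))
    (hper : ∀ x ∈ ES t, ∀ p : ℤ × ℤ, u (x + N * lp p) = u x)
    (hinj : ∀ x ∈ ES t, ∀ y ∈ ES t, u x = u y → ∃ p : ℤ × ℤ, y = x + N * lp p)
    {O : Set ℂ} (hO : IsOpen O) :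
    ∃ V : Set E, IsOpen V ∧ u '' ES t ∩ V = u '' (ES t ∩ O) := by
  obtain ⟨Z, hZ⟩ : ∃ Z : Set ℂ, Z = ES t ∩ ⋂ p : ℤ × ℤ, {x | x + N * lp p ∉ O} := ⟨_, rfl⟩
  have hZc : IsClosed Z := by
    rw [hZ]
    refine (isClosed_ES t).inter (isClosed_iInter fun p => ?_)
    have : {x : ℂ | x + N * lp p ∉ O} = (fun x => x + N * lp p) ⁻¹' Oᶜ := rfl
    rw [this]
    exact hO.isClosed_compl.preimage (by fun_prop)
  have hZE : Z ⊆ ES t := by
    rw [hZ]
    exact inter_subset_left
  have hZper : ∀ x ∈ Z, ∀ p : ℤ × ℤ, x + N * lp p ∈ Z := by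
    intro x hx q
    rw [hZ] at hx ⊢
    refine ⟨?_, ?_⟩
    · rw [natCast_mul_lp]
      exact add_lp_mem_ES hx.1 _
    · rw [mem_iInter]
      intro p
      have h1 := mem_iInter.1 hx.2 (q + p)
      rw [mem_ofPred_eq, lp_add] at h1
      rw [mem_ofPred_eq]
      convert h1 using 2
      ring
  refine ⟨(u '' Z)ᶜ, (isCompact_image hN hc hper hZc hZE hZper).isClosed.isOpen_compl, ?_⟩
  ext z
  constructor
  · rintro ⟨⟨y, hy, rfl⟩, hyZ⟩
    have h1 : y ∉ Z := fun h => hyZ ⟨y, h, rfl⟩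
    rw [hZ, mem_inter_iff, not_and, mem_iInter, not_forall] at h1
    obtain ⟨p, hp⟩ := h1 hy
    rw [mem_ofPred_eq, not_not] at hp
    refine ⟨y + N * lp p, ⟨?_, hp⟩, hper y hy p⟩
    rw [natCast_mul_lp]
    exact add_lp_mem_ES hy _
  · rintro ⟨y, ⟨hyE, hyO⟩, rfl⟩
    refine ⟨⟨y, hyE, rfl⟩, ?_⟩
    rintro ⟨x, hx, hxy⟩
    obtain ⟨p, hp⟩ := hinj x (hZE hx) y hyE hxy
    rw [hZ] at hx
    have h1 := mem_iInter.1 hx.2 p
    rw [mem_ofPred_eq, ← hp] at h1
    exact h1 hyO

end Image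

end FB.Tp
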